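import Pool.Agent.MP_8c2300_lc.Defs

/-!
Polynomial time with polynomial advice, relative to an oracle.
-/

namespace Pool.Agent.MP_8c2300_lc

/-- Polynomial time with oracle `A` and an advice word of polynomial length that depends only on
the length of the input. -/
def PPoly (A : Str → Bool) : Set (Set Str) :=
  {L | ∃ (M : OM) (h : ℕ → Str) (p : Polynomial ℕ), (∀ n, (h n).length ≤ p.eval n) ∧
    ∀ x, x ∈ L ↔ M.Acc A id x (h x.length)}

end Pool.Agent.MP_8c2300_lc
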