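import Pool.Agent.MP_8c2300_lc.Defs
import Pool.Agent.MP_8c2300_lc.Main
import Pool.Agent.MP_8c2300_lc.h70.Defs

-- ======== part 0: formerly Pool.Agent.MP_8c2300_lc.h70.Fam
section MrgPart0

/-!
Families of accepting paths with disjoint sets of ones, and changes of the rows of the oracle.
-/

namespace Pool.Agent.MP_8c2300_lc.H70

open Finset Classical

/-- A path: an input, a set of queries, their answers and a tag used only to make copies. -/
structure Pth (Y : Type) where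
  y : Y
  S : Finset Str
  σ : Str → Bool
  tag : ℕ

/-- The setting: open positions, rows with weights and the accepting paths. -/
structure Env (Y : Type) where
  U : Set Str
  row : Str → Str
  ω : Str → ℕ
  ω_pos : ∀ r, 0 < ω r
  ok : Y → Finset Str → (Str → Bool) → Prop

namespace Env

variable {Y : Type} (E : Env Y)

/-- The open positions that the path needs to be one. -/
noncomputable def τ (p : Pth Y) : Finset Str := p.S.filter (fun s => s ∈ E.U ∧ p.σ s = true)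

/-- The path agrees with `V` outside the open positions. -/
def Alive (V : Str → Bool) (p : Pth Y) : Prop := ∀ s ∈ p.S, s ∉ E.U → p.σ s = V s

/-- A family of living paths with disjoint sets of ones avoiding `K`. -/
def Good (B : Set Y) (V : Str → Bool) (K : Finset Str) (F : Finset (Pth Y)) : Prop :=
  (∀ p ∈ F, E.ok p.y p.S p.σ ∧ p.y ∈ B ∧ E.Alive V p ∧ Disjoint (E.τ p) K) ∧
    ∀ p ∈ F, ∀ q ∈ F, p ≠ q → Disjoint (E.τ p) (E.τ q)

/-- There is a good family with `a` members. -/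
def Big (B : Set Y) (V : Str → Bool) (K : Finset Str) (a : ℕ) : Prop :=
  ∃ F, E.Good B V K F ∧ a ≤ F.card

/-- The weight of a set of rows. -/
def wt (D : Finset Str) : ℕ := ∑ r ∈ D, E.ω r

/-- `V'` comes from `V` by rewriting allowed rows of weight at most `R`. -/
def Chg (Fb : Finset Str) (R : ℕ) (V V' : Str → Bool) : Prop :=
  ∃ D : Finset Str, Disjoint D Fb ∧ E.wt D ≤ R ∧ ∀ s, E.row s ∉ D → V' s = V s

/-- Paths for inputs in `B` have at most `t` queries. -/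
def Small (B : Set Y) (t : ℕ) : Prop := ∀ y ∈ B, ∀ S σ, E.ok y S σ → S.card ≤ t

/-- Every input in `H` keeps a large family after every allowed change. -/
def Yes (H : Finset Y) (V : Str → Bool) (K Fb : Finset Str) (R a : ℕ) : Prop :=
  ∀ y ∈ H, ∀ V', E.Chg Fb R V V' → E.Big {y} V' K a

/-- No allowed change gives the inputs in `B` a large family. -/
def No (B : Set Y) (V : Str → Bool) (K Fb : Finset Str) (R a : ℕ) : Prop :=
  ∀ V', E.Chg Fb R V V' → ¬ E.Big B V' K a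

variable {E}

theorem wt_union (D D' : Finset Str) : E.wt (D ∪ D') ≤ E.wt D + E.wt D' := by
  unfold wt
  rw [← sum_union_inter]
  omega

theorem Chg.refl (Fb : Finset Str) (R : ℕ) (V : Str → Bool) : E.Chg Fb R V V :=
  ⟨∅, by simp, by simp [wt], fun _ _ => rfl⟩

theorem Chg.mono {Fb Fb' : Finset Str} {R R' : ℕ} {V V' : Str → Bool} (h : E.Chg Fb' R V V')
    (hF : Fb ⊆ Fb') (hR : R ≤ R') : E.Chg Fb R' V V' := by
  obtain ⟨D, h1, h2, h3⟩ := h
  exact ⟨D, h1.mono_right hF, h2.trans hR, h3⟩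

theorem Chg.trans {Fb Fb' : Finset Str} {R R' : ℕ} {V V' V'' : Str → Bool} (h : E.Chg Fb R V V')
    (h' : E.Chg Fb' R' V' V'') (hF : Fb ⊆ Fb') : E.Chg Fb (R + R') V V'' := by
  obtain ⟨D, h1, h2, h3⟩ := h
  obtain ⟨D', k1, k2, k3⟩ := h'
  refine ⟨D ∪ D', disjoint_union_left.2 ⟨h1, k1.mono_right hF⟩,
    (wt_union _ _).trans (add_le_add h2 k2), fun s hs => ?_⟩
  rw [mem_union, not_or] at hs
  rw [k3 s hs.2, h3 s hs.1]

theorem Chg.frozen {Fb : Finset Str} {R : ℕ} {V V' : Str → Bool} (h : E.Chg Fb R V V')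
    {s : Str} (hs : R < E.ω (E.row s)) : V' s = V s := by
  obtain ⟨D, -, h2, h3⟩ := h
  refine h3 s fun hD => ?_
  have : E.ω (E.row s) ≤ E.wt D := single_le_sum (f := E.ω) (fun _ _ => Nat.zero_le _) hD
  omega

theorem Small.mono {B B' : Set Y} {t t' : ℕ} (h : E.Small B' t) (hB : B ⊆ B') (ht : t ≤ t') :
    E.Small B t' := fun y hy S σ hp => (h y (hB hy) S σ hp).trans ht

theorem Good.sub {B B' : Set Y} {V V' : Str → Bool} {K K' : Finset Str} {F F' : Finset (Pth Y)}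
    (h : E.Good B V K F) (hF : F' ⊆ F)
    (h' : ∀ p ∈ F', p.y ∈ B' ∧ E.Alive V' p ∧ Disjoint (E.τ p) K') : E.Good B' V' K' F' :=
  ⟨fun p hp => ⟨(h.1 p (hF hp)).1, h' p hp⟩, fun p hp q hq => h.2 p (hF hp) q (hF hq)⟩

theorem card_hit {F : Finset (Pth Y)} (h : ∀ p ∈ F, ∀ q ∈ F, p ≠ q → Disjoint (E.τ p) (E.τ q))
    (D : Finset Str) : (F.filter (fun p => ¬ Disjoint (E.τ p) D)).card ≤ D.card := by
  have : ∀ p : Pth Y, ∃ s, ¬ Disjoint (E.τ p) D → s ∈ E.τ p ∧ s ∈ D := fun p => by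
    by_cases hp : Disjoint (E.τ p) D
    · exact ⟨[], fun h => (h hp).elim⟩
    · obtain ⟨s, hs⟩ := not_disjoint_iff.1 hp
      exact ⟨s, fun _ => hs⟩
  choose f hf using this
  refine card_le_card_of_injOn f (fun p hp => (hf p (mem_filter.1 hp).2).2) fun p hp q hq e => ?_
  by_contra hne
  have hp' := mem_filter.1 (mem_coe.1 hp)
  have hq' := mem_filter.1 (mem_coe.1 hq)
  exact disjoint_left.1 (h p hp'.1 q hq'.1 hne) (hf p hp'.2).1 (e ▸ (hf q hq'.2).1)

theorem Big.mono {B : Set Y} {V : Str → Bool} {K K' : Finset Str} {a a' : ℕ}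
    (h : E.Big B V K a) (hK : K' ⊆ K) (ha : a' ≤ a) : E.Big B V K' a' := by
  obtain ⟨F, hF, hc⟩ := h
  exact ⟨F, hF.sub Subset.rfl fun p hp => ⟨(hF.1 p hp).2.1, (hF.1 p hp).2.2.1,
    (hF.1 p hp).2.2.2.mono_right hK⟩, ha.trans hc⟩

theorem Big.kill {B : Set Y} {V : Str → Bool} {K K' : Finset Str} {a c : ℕ}
    (h : E.Big B V K (a + c)) (hK : K ⊆ K') (hc : K'.card ≤ K.card + c) : E.Big B V K' a := by
  obtain ⟨F, hF, ha⟩ := h
  refine ⟨F.filter (fun p => Disjoint (E.τ p) (K' \ K)), hF.sub (filter_subset _ _) fun p hp => ?_,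
    ?_⟩
  · obtain ⟨h1, h2⟩ := mem_filter.1 hp
    refine ⟨(hF.1 p h1).2.1, (hF.1 p h1).2.2.1, ?_⟩
    rw [← union_sdiff_of_subset hK]
    exact disjoint_union_right.2 ⟨(hF.1 p h1).2.2.2, h2⟩
  · have h1 := card_hit hF.2 (K' \ K)
    have h2 := card_filter_add_card_filter_not (s := F) (fun p => Disjoint (E.τ p) (K' \ K))
    have h3 := card_sdiff_add_card_eq_card hK
    omega

theorem Big.split {B B' : Set Y} {V : Str → Bool} {K : Finset Str} {a a' : ℕ}
    (h : E.Big (B ∪ B') V K (a + a')) : E.Big B V K a ∨ E.Big B' V K a' := by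
  obtain ⟨F, hF, ha⟩ := h
  have h2 := card_filter_add_card_filter_not (s := F) (fun p => p.y ∈ B)
  by_cases h1 : a ≤ (F.filter (fun p => p.y ∈ B)).card
  · exact Or.inl ⟨_, hF.sub (filter_subset _ _) fun p hp =>
      ⟨(mem_filter.1 hp).2, (hF.1 p (mem_filter.1 hp).1).2.2⟩, h1⟩
  · refine Or.inr ⟨F.filter (fun p => ¬ p.y ∈ B), hF.sub (filter_subset _ _) fun p hp =>
      ⟨?_, (hF.1 p (mem_filter.1 hp).1).2.2⟩, by omega⟩
    exact ((hF.1 p (mem_filter.1 hp).1).2.1).resolve_left (mem_filter.1 hp).2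

theorem Big.of_empty {B : Set Y} {V : Str → Bool} {p : Pth Y} (h1 : E.ok p.y p.S p.σ)
    (h2 : p.y ∈ B) (h3 : E.Alive V p) (h4 : E.τ p = ∅) (K : Finset Str) (a : ℕ) :
    E.Big B V K a := by
  refine ⟨(range a).image (fun n => ⟨p.y, p.S, p.σ, n⟩), ⟨fun q hq => ?_, fun q hq q' _ _ => ?_⟩, ?_⟩
  · obtain ⟨n, -, rfl⟩ := mem_image.1 hq
    refine ⟨h1, h2, h3, ?_⟩
    rw [show E.τ ⟨p.y, p.S, p.σ, n⟩ = ∅ from h4]
    exact disjoint_empty_left _
  · obtain ⟨n, -, rfl⟩ := mem_image.1 hq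
    rw [show E.τ ⟨p.y, p.S, p.σ, n⟩ = ∅ from h4]
    exact disjoint_empty_left _
  · rw [card_image_of_injective _ (fun m n h => by simpa using h), card_range]

theorem lock {B : Set Y} {V : Str → Bool} {K : Finset Str} {F : Finset (Pth Y)} {t : ℕ}
    (hF : E.Good B V K F) (ht : E.Small B t) (R : ℕ) : ∃ Hv : Finset Str, E.wt Hv ≤ 2 * t * R ∧
      ∀ V', E.Chg Hv R V V' → F.card ≤ 2 * (F.filter (E.Alive V')).card := by
  let tc : Str → ℕ := fun r => (F.filter (fun p => r ∈ p.S.image E.row)).card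
  let al := F.biUnion (fun p => p.S.image E.row)
  have hsum : ∑ r ∈ al, tc r ≤ F.card * t := by
    have : ∑ r ∈ al, tc r = ∑ p ∈ F, (al.filter (fun r => r ∈ p.S.image E.row)).card := by
      simp only [tc, card_filter]
      exact sum_comm
    rw [this]
    refine sum_le_card_nsmul _ _ _ fun p hp => ?_
    refine (card_le_card (t := p.S.image E.row) fun r hr => (mem_filter.1 hr).2).trans ?_
    exact card_image_le.trans (ht _ (hF.1 p hp).2.1 _ _ (hF.1 p hp).1)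
  refine ⟨al.filter (fun r => E.ω r * F.card < 2 * R * tc r), ?_, fun V' hV => ?_⟩
  · rcases Nat.eq_zero_or_pos F.card with h0 | h0
    · simp [wt, al, card_eq_zero.1 h0]
    refine Nat.le_of_mul_le_mul_right ?_ h0
    calc E.wt (al.filter (fun r => E.ω r * F.card < 2 * R * tc r)) * F.card
        = ∑ r ∈ al.filter (fun r => E.ω r * F.card < 2 * R * tc r), E.ω r * F.card := by
          rw [wt, sum_mul]
      _ ≤ ∑ r ∈ al.filter (fun r => E.ω r * F.card < 2 * R * tc r), 2 * R * tc r :=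
          sum_le_sum fun r hr => (mem_filter.1 hr).2.le
      _ ≤ ∑ r ∈ al, 2 * R * tc r := sum_le_sum_of_subset (filter_subset _ _)
      _ ≤ 2 * R * (F.card * t) := by rw [← mul_sum]; exact Nat.mul_le_mul_left _ hsum
      _ = 2 * t * R * F.card := by ring
  · have h2 := card_filter_add_card_filter_not (s := F) (E.Alive V')
    rcases Nat.eq_zero_or_pos R with h0 | h0
    · have : V' = V := funext fun s => hV.frozen (h0 ▸ E.ω_pos _)
      rw [this, filter_true_of_mem fun p hp => (hF.1 p hp).2.2.1]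
      omega
    obtain ⟨D, h3, h4, h5⟩ := hV
    have h6 : (F.filter (fun p => ¬ E.Alive V' p)).card ≤ ∑ r ∈ D, tc r := by
      refine le_trans (card_le_card fun p hp => ?_) card_biUnion_le
      obtain ⟨k1, k2⟩ := mem_filter.1 hp
      simp only [Alive, not_forall] at k2
      obtain ⟨s, k3, k4, k5⟩ := k2
      refine mem_biUnion.2 ⟨E.row s, ?_, mem_filter.2 ⟨k1, mem_image_of_mem _ k3⟩⟩
      by_contra k6
      exact k5 (by rw [h5 s k6]; exact (hF.1 p k1).2.2.1 s k3 k4)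
    have h7 : ∑ r ∈ D, 2 * R * tc r ≤ ∑ r ∈ D, E.ω r * F.card := by
      refine sum_le_sum fun r hr => ?_
      by_contra k1
      refine disjoint_left.1 h3 hr (mem_filter.2 ⟨?_, not_le.1 k1⟩)
      have : 0 < tc r := by
        by_contra k2
        simp [Nat.eq_zero_of_not_pos k2] at k1
      obtain ⟨p, hp⟩ := card_pos.1 this
      exact mem_biUnion.2 ⟨p, (mem_filter.1 hp).1, (mem_filter.1 hp).2⟩
    rw [← mul_sum, ← sum_mul] at h7
    have h8 : R * (2 * ∑ r ∈ D, tc r) ≤ R * F.card := by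
      calc R * (2 * ∑ r ∈ D, tc r) = 2 * R * ∑ r ∈ D, tc r := by ring
        _ ≤ _ := h7
        _ ≤ R * F.card := Nat.mul_le_mul_right _ h4
    have := Nat.le_of_mul_le_mul_left h8 h0
    omega

theorem Yes.move {H : Finset Y} {V V' : Str → Bool} {K K' Fb Fb' : Finset Str}
    {R R₁ R₂ a a' c : ℕ} (h : E.Yes H V K Fb R a) (hV : E.Chg Fb R₁ V V') (hF : Fb ⊆ Fb')
    (hR : R₁ + R₂ ≤ R) (hK : K ⊆ K') (hc : K'.card ≤ K.card + c) (ha : a' + c ≤ a) :
    E.Yes H V' K' Fb' R₂ a' := fun y hy V'' hV' =>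
  ((h y hy V'' ((hV.trans hV' hF).mono Subset.rfl hR)).mono Subset.rfl ha).kill hK hc

theorem No.move {B : Set Y} {V V' : Str → Bool} {K K' Fb Fb' : Finset Str}
    {R R₁ R₂ a a' : ℕ} (h : E.No B V K Fb R a) (hV : E.Chg Fb R₁ V V') (hF : Fb ⊆ Fb')
    (hR : R₁ + R₂ ≤ R) (hK : K ⊆ K') (ha : a ≤ a') : E.No B V' K' Fb' R₂ a' :=
  fun V'' hV' hb => h V'' ((hV.trans hV' hF).mono Subset.rfl hR) (hb.mono hK ha)

theorem No.union {B : Set Y} {V : Str → Bool} {K Fb : Finset Str} {R a b : ℕ}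
    (h : E.No B V K Fb R a) (N : Finset Y) (hN : ∀ x ∈ N, E.No {x} V K Fb R b) :
    E.No (B ∪ N) V K Fb R (a + N.card * b) := by
  induction N using Finset.induction_on with
  | empty => simpa using h
  | insert x N hx ih =>
    intro V' hV hb
    rw [card_insert_of_notMem hx, show B ∪ ↑(insert x N) = (B ∪ N) ∪ {x} by
      ext y; simp, show a + (N.card + 1) * b = (a + N.card * b) + b by ring] at hb
    rcases hb.split with h1 | h1
    · exact ih (fun y hy => hN y (mem_insert_of_mem hy)) V' hV h1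
    · exact hN x (mem_insert_self _ _) V' hV h1

end Env

end Pool.Agent.MP_8c2300_lc.H70

end MrgPart0

-- ======== part 1: formerly Pool.Agent.MP_8c2300_lc.h70.Final
section MrgPart1

-- ======== part 0: formerly Pool.Agent.MP_8c2300_lc.h70.Stage
section MrgPart0

/-!
One halving stage: find the inputs with large families, then prepay the killing of the others.
-/

namespace Pool.Agent.MP_8c2300_lc.H70

open Finset Classical

namespace Env

variable {Y : Type} {E : Env Y}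

theorem stepA_aux {X : Finset Y} {t : ℕ} (ht : E.Small X t) (V : Str → Bool) (K Fb : Finset Str)
    (n r a j : ℕ) : ∀ c, j + c = n → ∃ H ⊆ X, ∃ V₁ Fb₁, Fb ⊆ Fb₁ ∧
      E.wt Fb₁ ≤ E.wt Fb + j * (2 * t * (n * r)) ∧ E.Chg Fb (j * r) V V₁ ∧
      E.Yes H V₁ K Fb₁ (c * r) a ∧
      (j ≤ H.card ∨ ∀ x ∈ X \ H, E.No {x} V₁ K Fb₁ r (2 * a)) := by
  induction j with
  | zero =>
    exact fun c _ => ⟨∅, empty_subset _, V, Fb, Subset.rfl, by simp, Chg.refl _ _ _,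
      fun y hy => by simp at hy, Or.inl (Nat.zero_le _)⟩
  | succ j ih =>
    intro c hc
    obtain ⟨H, hH, V₁, Fb₁, h1, h2, h3, h4, h5⟩ := ih (c + 1) (by omega)
    by_cases hd : ∀ x ∈ X \ H, E.No {x} V₁ K Fb₁ r (2 * a)
    · refine ⟨H, hH, V₁, Fb₁, h1, h2.trans (by gcongr; omega),
        h3.mono Subset.rfl (by gcongr; omega), ?_, Or.inr hd⟩
      exact h4.move (Chg.refl Fb₁ 0 V₁) Subset.rfl (by nlinarith) Subset.rfl (c := 0) le_rfl le_rfl
    have h6 := h5.resolve_right hd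
    simp only [No, not_forall, not_not] at hd
    obtain ⟨x, hx, V₂, hV, F, hF, hc2⟩ := hd
    rw [mem_sdiff] at hx
    obtain ⟨Hv, k1, k2⟩ := lock hF (ht.mono (by simpa using hx.1) le_rfl) (c * r)
    refine ⟨insert x H, insert_subset hx.1 hH, V₂, Fb₁ ∪ Hv, h1.trans subset_union_left, ?_, ?_,
      fun y hy => ?_, Or.inl (by rw [card_insert_of_notMem hx.2]; omega)⟩
    · have : 2 * t * (c * r) ≤ 2 * t * (n * r) := by gcongr; omega
      have := wt_union (E := E) Fb₁ Hv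
      rw [add_mul]
      omega
    · rw [add_mul, one_mul]
      exact h3.trans hV h1
    · rcases mem_insert.1 hy with rfl | hy
      · intro V' hV'
        have := k2 V' (hV'.mono subset_union_right le_rfl)
        exact ⟨F.filter (E.Alive V'), hF.sub (filter_subset _ _) fun p hp =>
          ⟨(hF.1 p (mem_filter.1 hp).1).2.1, (mem_filter.1 hp).2,
            (hF.1 p (mem_filter.1 hp).1).2.2.2⟩, by omega⟩
      · exact h4.move hV subset_union_left (R₂ := c * r) (by nlinarith) Subset.rfl (c := 0) le_rfl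
          le_rfl y hy

theorem stepA {X : Finset Y} {t k : ℕ} (ht : E.Small X t) (hk : X.card ≤ k) (V : Str → Bool)
    (K Fb : Finset Str) (r a : ℕ) : ∃ H ⊆ X, ∃ V₁ Fb₁, Fb ⊆ Fb₁ ∧
      E.wt Fb₁ ≤ E.wt Fb + k * (2 * t * ((k + 1) * r)) ∧ E.Chg Fb (k * r) V V₁ ∧
      E.Yes H V₁ K Fb₁ r a ∧ ∀ x ∈ X \ H, E.No {x} V₁ K Fb₁ r (2 * a) := by
  obtain ⟨H, hH, V₁, Fb₁, h1, h2, h3, h4, h5⟩ := stepA_aux ht V K Fb (k + 1) r a k 1 rfl
  refine ⟨H, hH, V₁, Fb₁, h1, h2, h3, by simpa using h4, h5.elim (fun h x hx => ?_) id⟩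
  rw [eq_of_subset_of_card_le hH (hk.trans h)] at hx
  simp at hx

theorem stepB_aux {B : Set Y} {t : ℕ} (ht : E.Small B t) {V : Str → Bool} {K Fb : Finset Str}
    {n r β ρ c : ℕ} (hn : E.No B V K Fb (n * r) β) (hρ : 2 * ρ ≤ c + 1) (j : ℕ) :
    ∀ d, j + d = n → ∃ V₁ K₁ Fb₁, Fb ⊆ Fb₁ ∧ E.wt Fb₁ ≤ E.wt Fb + j * (2 * t * (n * r)) ∧
      K ⊆ K₁ ∧ K₁.card ≤ K.card + j * (c * t) ∧ (∀ s ∈ K₁, s ∈ K ∨ s ∈ E.U) ∧
      E.Chg Fb (j * r) V V₁ ∧ (E.No B V₁ K₁ Fb₁ r c ∨ ∀ V', E.Chg Fb₁ (d * r) V₁ V' →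
        ∃ G, E.Good B V' K G ∧ j * ρ ≤ G.card ∧ ∀ p ∈ G, E.τ p ⊆ K₁ ∧ E.τ p ≠ ∅) := by
  induction j with
  | zero =>
    exact fun d _ => ⟨V, K, Fb, Subset.rfl, by simp, Subset.rfl, by simp, fun s hs => Or.inl hs,
      Chg.refl _ _ _, Or.inr fun V' _ => ⟨∅, ⟨by simp, by simp⟩, by simp, by simp⟩⟩
  | succ j ih =>
    intro d hd
    obtain ⟨V₁, K₁, Fb₁, h1, h2, h3, h4, h5, h6, h7⟩ := ih (d + 1) (by omega)
    by_cases hN : E.No B V₁ K₁ Fb₁ r c
    · exact ⟨V₁, K₁, Fb₁, h1, h2.trans (by gcongr; omega), h3, h4.trans (by gcongr; omega), h5,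
        h6.mono Subset.rfl (by gcongr; omega), Or.inl hN⟩
    have h8 := h7.resolve_left hN
    simp only [No, not_forall, not_not] at hN
    obtain ⟨V₂, hV, F', hF', hc2⟩ := hN
    obtain ⟨F, k1, k2⟩ := exists_subset_card_eq hc2
    have hF : E.Good B V₂ K₁ F := hF'.sub k1 fun p hp => (hF'.1 p (k1 hp)).2
    have hV2 : E.Chg Fb ((j + 1) * r) V V₂ := by
      rw [add_mul, one_mul]
      exact h6.trans hV h1
    have hne : ∀ p ∈ F, E.τ p ≠ ∅ := fun p hp he =>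
      hn V₂ (hV2.mono Subset.rfl (by gcongr; omega))
        (Big.of_empty (hF.1 p hp).1 (hF.1 p hp).2.1 (hF.1 p hp).2.2.1 he K β)
    obtain ⟨Hv, k3, k4⟩ := lock hF ht (d * r)
    refine ⟨V₂, K₁ ∪ F.biUnion E.τ, Fb₁ ∪ Hv, h1.trans subset_union_left, ?_,
      h3.trans subset_union_left, ?_, fun s hs => ?_, hV2, Or.inr fun V' hV' => ?_⟩
    · have : 2 * t * (d * r) ≤ 2 * t * (n * r) := by gcongr; omega
      have := wt_union (E := E) Fb₁ Hv
      rw [add_mul]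
      omega
    · have k5 : (F.biUnion E.τ).card ≤ c * t := k2 ▸ card_biUnion_le_card_mul _ _ _ fun p hp =>
        (card_filter_le _ _).trans (ht _ (hF.1 p hp).2.1 _ _ (hF.1 p hp).1)
      have := card_union_le K₁ (F.biUnion E.τ)
      rw [add_mul]
      omega
    · rcases mem_union.1 hs with hs | hs
      · exact h5 s hs
      · obtain ⟨p, -, hp⟩ := mem_biUnion.1 hs
        exact Or.inr (mem_filter.1 hp).2.1
    · obtain ⟨G, g1, g2, g3⟩ := h8 V' ((hV.trans hV' subset_union_left).mono Subset.rfl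
        (by nlinarith))
      have g4 := k4 V' (hV'.mono subset_union_right le_rfl)
      have g5 : ∀ p ∈ G, ∀ q ∈ F, Disjoint (E.τ p) (E.τ q) := fun p hp q hq =>
        ((hF.1 q hq).2.2.2.mono_right (g3 p hp).1).symm
      have g6 : Disjoint G (F.filter (E.Alive V')) := disjoint_left.2 fun p hp hq =>
        (g3 p hp).2 (disjoint_self.1 (g5 p hp p (mem_filter.1 hq).1))
      refine ⟨G ∪ F.filter (E.Alive V'), ⟨fun p hp => ?_, fun p hp q hq hpq => ?_⟩, ?_,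
        fun p hp => ?_⟩
      · rcases mem_union.1 hp with hp | hp
        · exact g1.1 p hp
        · obtain ⟨e1, e2⟩ := mem_filter.1 hp
          exact ⟨(hF.1 p e1).1, (hF.1 p e1).2.1, e2, (hF.1 p e1).2.2.2.mono_right h3⟩
      · rcases mem_union.1 hp with hp | hp <;> rcases mem_union.1 hq with hq | hq
        · exact g1.2 p hp q hq hpq
        · exact g5 p hp q (mem_filter.1 hq).1
        · exact (g5 q hq p (mem_filter.1 hp).1).symm
        · exact hF.2 p (mem_filter.1 hp).1 q (mem_filter.1 hq).1 hpq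
      · rw [card_union_of_disjoint g6, add_mul]
        omega
      · rcases mem_union.1 hp with hp | hp
        · exact ⟨(g3 p hp).1.trans subset_union_left, (g3 p hp).2⟩
        · exact ⟨(subset_biUnion_of_mem E.τ (mem_filter.1 hp).1).trans subset_union_right,
            hne p (mem_filter.1 hp).1⟩

theorem stepB {B : Set Y} {t : ℕ} (ht : E.Small B t) {V : Str → Bool} {K Fb : Finset Str}
    {s r β ρ c : ℕ} (hn : E.No B V K Fb ((s + 1) * r) β) (hρ : 2 * ρ ≤ c + 1) (hβ : β ≤ s * ρ) :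
    ∃ V₁ K₁ Fb₁, Fb ⊆ Fb₁ ∧ E.wt Fb₁ ≤ E.wt Fb + s * (2 * t * ((s + 1) * r)) ∧
      K ⊆ K₁ ∧ K₁.card ≤ K.card + s * (c * t) ∧ (∀ x ∈ K₁, x ∈ K ∨ x ∈ E.U) ∧
      E.Chg Fb (s * r) V V₁ ∧ E.No B V₁ K₁ Fb₁ r c := by
  obtain ⟨V₁, K₁, Fb₁, h1, h2, h3, h4, h5, h6, h7⟩ := stepB_aux ht hn hρ s 1 rfl
  refine ⟨V₁, K₁, Fb₁, h1, h2, h3, h4, h5, h6, h7.resolve_right fun h => ?_⟩
  obtain ⟨G, g1, g2, -⟩ := h V₁ (Chg.refl _ _ _)
  exact hn V₁ (h6.mono Subset.rfl (by nlinarith)) ⟨G, g1, hβ.trans g2⟩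

end Env

/-- A state of the construction. -/
structure St (Y : Type) where
  V : Str → Bool
  K : Finset Str
  Fb : Finset Str
  H : Finset Y
  B : Finset Y

namespace Env

variable {Y : Type} (E : Env Y)

/-- The invariant at size `T`, row budget `r` and scale `u`. -/
def Inv (C Ψ T r u : ℕ) (s : St Y) : Prop :=
  E.Yes s.H s.V s.K s.Fb r (64 * T ^ 3 * u) ∧ E.No s.B s.V s.K s.Fb r (2 * u) ∧
    s.K.card + 64 * T ^ 3 * u ≤ C ∧ E.wt s.Fb + 4096 * T ^ 5 * r ≤ Ψ ∧ ∀ x ∈ s.K, x ∈ E.U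

/-- The state `s'` extends `s`, deciding inputs from `X` and keeping rows heavier than `R`. -/
def Ext (R : ℕ) (X : Finset Y) (s s' : St Y) : Prop :=
  s.H ⊆ s'.H ∧ s'.H ⊆ s.H ∪ X ∧ s.B ⊆ s'.B ∧ s'.B ⊆ s.B ∪ X ∧
    ∀ x, R < E.ω (E.row x) → s'.V x = s.V x

variable {E}

theorem Ext.trans {R R' : ℕ} {X X' : Finset Y} {s s' s'' : St Y} (h : E.Ext R X s s')
    (h' : E.Ext R' X' s' s'') (hR : R' ≤ R) (hX : X' ⊆ X) : E.Ext R X s s'' := by
  obtain ⟨h1, h2, h3, h4, h5⟩ := h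
  obtain ⟨k1, k2, k3, k4, k5⟩ := h'
  exact ⟨h1.trans k1, k2.trans (union_subset h2 (hX.trans subset_union_right)), h3.trans k3,
    k4.trans (union_subset h4 (hX.trans subset_union_right)),
    fun x hx => by rw [k5 x (by omega), h5 x hx]⟩

theorem Inv.weaken {C Ψ T T' r r' u : ℕ} {s : St Y} (h : E.Inv C Ψ T r u s) (hT : T' ≤ T)
    (hr : r' ≤ r) : E.Inv C Ψ T' r' u s := by
  obtain ⟨h1, h2, h3, h4, h5⟩ := h
  have e1 : 64 * T' ^ 3 * u ≤ 64 * T ^ 3 * u := by gcongr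
  have e2 : 4096 * T' ^ 5 * r' ≤ 4096 * T ^ 5 * r := by gcongr
  exact ⟨h1.move (Chg.refl s.Fb 0 s.V) Subset.rfl (by omega) Subset.rfl (c := 0) le_rfl e1,
    h2.move (Chg.refl s.Fb 0 s.V) Subset.rfl (by omega) Subset.rfl le_rfl, by omega, by omega, h5⟩

theorem stage {C Ψ T r u : ℕ} {s : St Y} {X : Finset Y} (hT : 1 ≤ T) (hX : X.card ≤ T)
    (hs : E.Small (↑(s.B ∪ X)) T) (h : E.Inv C Ψ T (4096 * T ^ 5 * r) (64 * T ^ 2 * u) s) :
    ∃ s' X', E.Inv C Ψ (2 * T) r u s' ∧ E.Ext (4096 * T ^ 5 * r) X s s' ∧ X' ⊆ X ∧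
      2 * X'.card ≤ X.card ∧ X ⊆ s'.H ∪ s'.B ∪ X' := by
  obtain ⟨h1, h2, h3, h4, h5⟩ := h
  have p2 : 1 ≤ T ^ 2 := Nat.one_le_pow _ _ hT
  have p4 : 1 ≤ T ^ 4 := Nat.one_le_pow _ _ hT
  have p24 : T ^ 2 ≤ T ^ 4 := Nat.pow_le_pow_right hT (by norm_num)
  have p35 : T ^ 3 * u ≤ T ^ 5 * u := Nat.mul_le_mul_right _ (Nat.pow_le_pow_right hT (by norm_num))
  set q := (1664 * T ^ 4 + 1) * r with hq
  have b0 : r ≤ q := Nat.le_mul_of_pos_left _ (by omega)
  have b1 : T * q + q ≤ 4096 * T ^ 5 * r := by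
    calc T * q + q ≤ T * q + T * q := by gcongr; exact Nat.le_mul_of_pos_left _ hT
      _ = 2 * T * (1664 * T ^ 4 + 1) * r := by rw [hq]; ring
      _ ≤ 2 * T * (2048 * T ^ 4) * r := by gcongr; omega
      _ = _ := by ring
  obtain ⟨H₁, hH, V₁, Fb₁, a1, a2, a3, a4, a5⟩ :=
    stepA (hs.mono (by simp) le_rfl) hX s.V s.K s.Fb q (768 * T ^ 3 * u)
  have c1 : E.Yes s.H V₁ s.K Fb₁ q (4096 * T ^ 5 * u) :=
    h1.move a3 a1 b1 Subset.rfl (c := 0) le_rfl (le_of_eq (by ring))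
  have c2 : E.No s.B V₁ s.K Fb₁ q (128 * T ^ 2 * u) :=
    h2.move a3 a1 b1 Subset.rfl (le_of_eq (by ring))
  have fin : ∀ (σ : ℕ) (H' B' : Finset Y) (α : ℕ), σ ≤ 1664 * T ^ 4 → s.H ⊆ H' → H' ⊆ s.H ∪ X →
      s.B ⊆ B' → B' ⊆ s.B ∪ X → E.Yes H' V₁ s.K Fb₁ q α → E.No B' V₁ s.K Fb₁ q (σ * u) →
      512 * T ^ 3 * u + σ * (2 * u * T) ≤ α → α ≤ 4096 * T ^ 5 * u →
      ∃ s' : St Y, s'.H = H' ∧ s'.B = B' ∧ E.Inv C Ψ (2 * T) r u s' ∧
        E.Ext (4096 * T ^ 5 * r) X s s' := by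
    intro σ H' B' α e1 e2 e3 e4 e5 e6 e7 e8 e9
    have f1 : (σ + 1) * r ≤ q := by rw [hq]; gcongr
    obtain ⟨V₂, K₂, Fb₂, d1, d2, d3, d4, d5, d6, d7⟩ := stepB (s := σ) (r := r) (ρ := u)
      (c := 2 * u) (hs.mono (coe_subset.2 e5) le_rfl)
      (e7.move (Chg.refl Fb₁ 0 V₁) Subset.rfl (by omega) Subset.rfl le_rfl) (by omega) le_rfl
    have f2 : σ * r + r ≤ q := by rw [← add_one_mul]; exact f1
    refine ⟨⟨V₂, K₂, Fb₂, H', B'⟩, rfl, rfl, ⟨e6.move d6 d1 f2 d3 d4 (le_trans (le_of_eq ?_) e8),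
      d7, ?_, ?_, fun x hx => (d5 x hx).elim (h5 x) id⟩, e2, e3, e4, e5, fun x hx => ?_⟩
    · ring
    · have : 64 * T ^ 3 * (64 * T ^ 2 * u) = 4096 * T ^ 5 * u := by ring
      have : 64 * (2 * T) ^ 3 * u = 512 * T ^ 3 * u := by ring
      dsimp only
      omega
    · set M := 4096 * T ^ 5 * r with hM
      have g1 : T * (2 * T * ((T + 1) * q)) ≤ 2 * T ^ 5 * M := by
        calc T * (2 * T * ((T + 1) * q)) = 2 * T ^ 2 * (T * q + q) := by ring
          _ ≤ 2 * T ^ 5 * M := by gcongr; norm_num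
      have g2 : σ * (2 * T * ((σ + 1) * r)) ≤ 3328 * T ^ 5 * M := by
        calc σ * (2 * T * ((σ + 1) * r)) ≤ 1664 * T ^ 4 * (2 * T * M) := by gcongr; omega
          _ = _ := by ring
      have g3 : 4096 * (2 * T) ^ 5 * r ≤ 32 * T ^ 5 * M := by
        calc 4096 * (2 * T) ^ 5 * r = 32 * 1 * M := by rw [hM]; ring
          _ ≤ _ := by gcongr; exact Nat.one_le_pow _ _ hT
      have g4 : 2 * T ^ 5 * M + 3328 * T ^ 5 * M + 32 * T ^ 5 * M ≤ 4096 * T ^ 5 * M := by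
        rw [← add_mul, ← add_mul]
        gcongr
        omega
      dsimp only
      omega
    · exact ((a3.trans d6 a1).mono Subset.rfl (by omega)).frozen hx
  have hc := card_sdiff_add_card_eq_card hH
  by_cases hh : X.card ≤ 2 * H₁.card
  · obtain ⟨s', e1, e2, e3, e4⟩ := fin (128 * T ^ 2) (s.H ∪ H₁) s.B (768 * T ^ 3 * u) (by omega)
      subset_union_left (union_subset_union Subset.rfl hH) Subset.rfl subset_union_left
      (fun y hy => (mem_union.1 hy).elim (fun hy V' hV => (c1 y hy V' hV).mono Subset.rfl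
        (by rw [mul_assoc, mul_assoc]; omega)) (a4 y)) c2 (le_of_eq (by ring))
      (by rw [mul_assoc, mul_assoc]; omega)
    refine ⟨s', X \ H₁, e3, e4, sdiff_subset, by omega, fun x hx => ?_⟩
    by_cases hx' : x ∈ H₁ <;> simp [e1, hx, hx']
  · have c3 := c2.union (X \ H₁) a5
    rw [← coe_union] at c3
    obtain ⟨s', e1, e2, e3, e4⟩ := fin (1664 * T ^ 4) s.H (s.B ∪ X \ H₁) (4096 * T ^ 5 * u) le_rfl
      Subset.rfl subset_union_left subset_union_left (union_subset_union Subset.rfl sdiff_subset) c1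
      (c3.move (Chg.refl Fb₁ 0 V₁) Subset.rfl (by omega) Subset.rfl (by
        calc 128 * T ^ 2 * u + (X \ H₁).card * (2 * (768 * T ^ 3 * u))
            ≤ 128 * T ^ 4 * u + T * (2 * (768 * T ^ 3 * u)) := by gcongr; omega
          _ = _ := by ring))
      (by
        have : 1664 * T ^ 4 * (2 * u * T) = 3328 * (T ^ 5 * u) := by ring
        rw [this, mul_assoc, mul_assoc]
        omega) le_rfl
    refine ⟨s', H₁, e3, e4, hH, by omega, fun x hx => ?_⟩
    by_cases hx' : x ∈ H₁ <;> simp [e2, hx, hx']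

end Env

end Pool.Agent.MP_8c2300_lc.H70

end MrgPart0

-- ======== part 1: formerly Pool.Agent.MP_8c2300_lc.h70.Block
section MrgPart1

/-!
Blocks of inputs, whose tables are written in fresh rows, and windows of blocks.
-/

namespace Pool.Agent.MP_8c2300_lc.H70

open Finset Classical

namespace Env

variable {Y : Type} {E : Env Y}

theorem Ext.refl (R : ℕ) (X : Finset Y) (s : St Y) : E.Ext R X s s :=
  ⟨Subset.rfl, subset_union_left, Subset.rfl, subset_union_left, fun _ _ => rfl⟩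

theorem stages {C Ψ T r u : ℕ} (hT : 1 ≤ T) (i : ℕ) : ∀ (s : St Y) (X : Finset Y), X.card ≤ T →
    X.card < 2 ^ i → E.Small (↑(s.B ∪ X)) T →
    E.Inv C Ψ (2 * T) ((4096 * T ^ 5) ^ i * r) ((64 * T ^ 2) ^ i * u) s →
    ∃ s', E.Inv C Ψ (2 * T) r u s' ∧ E.Ext ((4096 * T ^ 5) ^ i * r) X s s' ∧ X ⊆ s'.H ∪ s'.B := by
  induction i with
  | zero =>
    intro s X _ h _ hs
    rw [pow_zero, Nat.lt_one_iff, card_eq_zero] at h
    exact ⟨s, by simpa using hs, Ext.refl _ _ _, by simp [h]⟩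
  | succ i ih =>
    intro s X h1 h2 h3 h4
    rw [pow_succ' (4096 * T ^ 5) i, pow_succ' (64 * T ^ 2) i, mul_assoc (4096 * T ^ 5),
      mul_assoc (64 * T ^ 2)] at h4
    obtain ⟨s₁, X₁, a1, a2, a3, a4, a5⟩ := stage hT h1 h3 (h4.weaken (by omega) le_rfl)
    obtain ⟨s₂, b1, b2, b3⟩ := ih s₁ X₁ (by omega) (by omega)
      (h3.mono (coe_subset.2 (union_subset a2.2.2.2.1 (a3.trans subset_union_right))) le_rfl) a1
    rw [pow_succ' (4096 * T ^ 5) i, mul_assoc (4096 * T ^ 5)]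
    refine ⟨s₂, b1, a2.trans b2 (Nat.le_mul_of_pos_left _ (by positivity)) a3, a5.trans ?_⟩
    exact union_subset (union_subset_union b2.1 b2.2.2.1) b3

/-- The row `ρ` holds the table of decisions for the inputs in `X`. -/
def Table (pos : Str → Y → Str) (X : Finset Y) (ρ : Str) (s : St Y) : Prop :=
  ∀ y ∈ X, (s.V (pos ρ y) = true ∧ y ∈ s.H) ∨ (s.V (pos ρ y) = false ∧ y ∈ s.B)

theorem block {C Ψ T j r u w : ℕ} (hT : 1 ≤ T) {s : St Y} {X : Finset Y} {Rw : Finset Str}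
    {pos : Str → Y → Str} (h1 : X.card ≤ T) (h2 : X.card ≤ 2 ^ j) (h3 : E.Small (↑(s.B ∪ X)) T)
    (h4 : E.Inv C Ψ T ((4096 * T ^ 5) ^ (j + 1) * (w + r)) ((64 * T ^ 2) ^ (j + 1) * u) s)
    (h5 : ∀ ρ ∈ Rw, E.ω ρ = w) (h6 : Ψ < Rw.card * w) (h7 : ∀ ρ y, E.row (pos ρ y) = ρ)
    (h8 : ∀ ρ, Set.InjOn (pos ρ) X) :
    ∃ s', E.Inv C Ψ (2 * T) r u s' ∧ E.Ext ((4096 * T ^ 5) ^ (j + 1) * (w + r)) X s s' ∧
      ∃ ρ ∈ Rw, Table pos X ρ s' := by
  rw [pow_succ' (4096 * T ^ 5) j, pow_succ' (64 * T ^ 2) j, mul_assoc (4096 * T ^ 5),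
    mul_assoc (64 * T ^ 2)] at h4
  obtain ⟨s₁, X₁, a1, a2, a3, a4, a5⟩ := stage hT h1 h3 h4
  have : 0 < 2 ^ j := by positivity
  obtain ⟨s₂, b1, b2, b3⟩ := stages hT j s₁ X₁ (by omega) (by omega)
    (h3.mono (coe_subset.2 (union_subset a2.2.2.2.1 (a3.trans subset_union_right))) le_rfl) a1
  have c1 := a2.trans b2 (Nat.le_mul_of_pos_left _ (by positivity)) a3
  have c2 : X ⊆ s₂.H ∪ s₂.B := a5.trans (union_subset (union_subset_union b2.1 b2.2.2.1) b3)
  obtain ⟨ρ, hρ, hF⟩ : ∃ ρ ∈ Rw, ρ ∉ s₂.Fb := by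
    by_contra hc
    push Not at hc
    have e1 : E.wt Rw ≤ E.wt s₂.Fb := sum_le_sum_of_subset hc
    have e2 : E.wt Rw = Rw.card * w := by rw [wt, sum_congr rfl h5, sum_const, smul_eq_mul]
    have := b1.2.2.2.1
    omega
  let V : Str → Bool := fun x => if E.row x = ρ then decide (∃ y ∈ X, y ∈ s₂.H ∧ x = pos ρ y)
    else s₂.V x
  have hV : E.Chg s₂.Fb w s₂.V V :=
    ⟨{ρ}, by simpa using hF, by simp [wt, h5 ρ hρ], fun x hx => if_neg (by simpa using hx)⟩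
  rw [pow_succ' (4096 * T ^ 5) j, mul_assoc (4096 * T ^ 5)]
  refine ⟨⟨V, s₂.K, s₂.Fb, s₂.H, s₂.B⟩,
    ⟨b1.1.move hV Subset.rfl le_rfl Subset.rfl (c := 0) le_rfl le_rfl,
      b1.2.1.move hV Subset.rfl le_rfl Subset.rfl le_rfl, b1.2.2.1,
      le_trans (by dsimp only; gcongr; omega) b1.2.2.2.1, b1.2.2.2.2⟩,
    c1.trans (R' := w) (X' := ∅) ⟨Subset.rfl, subset_union_left, Subset.rfl, subset_union_left,
      fun x hx => hV.frozen hx⟩ ?_ (empty_subset _), ρ, hρ, fun y hy => ?_⟩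
  · rw [← mul_assoc]
    exact le_trans (Nat.le_add_right w r) (Nat.le_mul_of_pos_left _ (by positivity))
  · by_cases hH : y ∈ s₂.H
    · exact Or.inl ⟨by simp only [V, h7, if_true, decide_eq_true_iff]; exact ⟨y, hy, hH, rfl⟩, hH⟩
    · refine Or.inr ⟨?_, (mem_union.1 (c2 hy)).resolve_left hH⟩
      simp only [V, h7, if_true, decide_eq_false_iff_not]
      rintro ⟨y', e1, e2, e3⟩
      exact hH (h8 ρ hy e1 e3 ▸ e2)

theorem window_aux {C Ψ j₁ : ℕ} {R u : ℕ → ℕ} {X : ℕ → Finset Y} {Rw : ℕ → Finset Str}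
    {pos : Str → Y → Str} (h7 : ∀ ρ y, E.row (pos ρ y) = ρ) (d : ℕ) : ∀ (j : ℕ) (s : St Y),
    j + d = j₁ → (∀ i, j ≤ i → i < j₁ → (X i).card ≤ 2 ^ i ∧ E.Small (X i) (2 ^ i) ∧
      (4096 * (2 ^ i) ^ 5) ^ (i + 1) * (R (i + 1) + 1 + R (i + 1)) ≤ R i ∧
      u i = (64 * (2 ^ i) ^ 2) ^ (i + 1) * u (i + 1) ∧ (∀ ρ ∈ Rw i, E.ω ρ = R (i + 1) + 1) ∧
      Ψ < (Rw i).card * (R (i + 1) + 1) ∧ ∀ ρ, Set.InjOn (pos ρ) (X i)) →
    E.Small (↑(s.H ∪ s.B)) (2 ^ j) → s.H.card ≤ 2 ^ j → E.Inv C Ψ (2 ^ j) (R j) (u j) s →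
    ∃ s', E.Inv C Ψ (2 ^ j₁) (R j₁) (u j₁) s' ∧ E.Small (↑(s'.H ∪ s'.B)) (2 ^ j₁) ∧
      s'.H.card ≤ 2 ^ j₁ ∧ s.H ⊆ s'.H ∧ s.B ⊆ s'.B ∧ (∀ x, R j < E.ω (E.row x) → s'.V x = s.V x) ∧
      ∀ i, j ≤ i → i < j₁ → ∃ ρ ∈ Rw i, Table pos (X i) ρ s' := by
  induction d with
  | zero =>
    rintro j s rfl - h1 h2 h3
    exact ⟨s, h3, h1, h2, Subset.rfl, Subset.rfl, fun _ _ => rfl, fun i _ _ => by omega⟩
  | succ d ih =>
    intro j s hj h h1 h2 h3
    obtain ⟨a1, a2, a3, a4, a5, a6, a7⟩ := h j le_rfl (by omega)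
    have hs : E.Small (↑(s.H ∪ s.B ∪ X j)) (2 ^ j) := fun y hy => by
      rcases mem_union.1 (mem_coe.1 hy) with hy | hy
      · exact h1 y hy
      · exact a2 y hy
    obtain ⟨s₁, b1, b2, ρ, b3, b4⟩ := block Nat.one_le_two_pow a1 a1
      (hs.mono (coe_subset.2 (union_subset_union subset_union_right Subset.rfl)) le_rfl)
      ((a4 ▸ h3).weaken le_rfl a3) a5 a6 h7 a7
    rw [← pow_succ'] at b1
    obtain ⟨s₂, c1, c2, c3, c4, c5, c6, c7⟩ := ih (j + 1) s₁ (by omega)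
      (fun i hi => h i (by omega))
      (hs.mono (coe_subset.2 (union_subset
        (b2.2.1.trans (union_subset_union subset_union_left Subset.rfl))
        (b2.2.2.2.1.trans (union_subset_union subset_union_right Subset.rfl))))
        (Nat.pow_le_pow_right (by norm_num) (by omega)))
      ((card_le_card b2.2.1).trans ((card_union_le _ _).trans (by omega))) b1
    have : R (j + 1) + 1 + R (j + 1) ≤ R j :=
      le_trans (Nat.le_mul_of_pos_left _ (by positivity)) a3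
    refine ⟨s₂, c1, c2, c3, b2.1.trans c4, b2.2.2.1.trans c5,
      fun x hx => by rw [c6 x (by omega), b2.2.2.2.2 x (by omega)], fun i hi hi' => ?_⟩
    rcases hi.eq_or_lt with rfl | hi
    · refine ⟨ρ, b3, fun y hy => ?_⟩
      rw [c6 _ (by rw [h7, a5 ρ b3]; omega)]
      exact (b4 y hy).imp (fun e => ⟨e.1, c4 e.2⟩) (fun e => ⟨e.1, c5 e.2⟩)
    · exact c7 i hi hi'

theorem choose_idx {ι : Type} [Fintype ι] {a t : ℕ} (bad : ι → Fin a → ι → Fin a → Prop)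
    (hb : ∀ y y' i', (univ.filter (fun i => bad y i y' i')).card ≤ t)
    (ha : Fintype.card ι ^ 2 * t < a) :
    ∃ c : ι → Fin a, ∀ y y', y ≠ y' → ¬ bad y (c y) y' (c y') := by
  let Bd : ι × ι → Finset (ι → Fin a) := fun z =>
    univ.filter (fun c => z.1 ≠ z.2 ∧ bad z.1 (c z.1) z.2 (c z.2))
  have h1 : ∀ z, a * (Bd z).card ≤ t * Fintype.card (ι → Fin a) := by
    rintro ⟨y, y'⟩
    let W : Finset ((ι → Fin a) × Fin a) := univ.filter (fun v => bad y v.2 y' (v.1 y'))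
    have e1 : W.card ≤ t * Fintype.card (ι → Fin a) := by
      refine (card_le_mul_card_image_of_maps_to (f := Prod.fst) (t := univ)
        (fun _ _ => mem_univ _) t fun c _ => le_trans ?_ (hb y y' (c y'))).trans (by simp)
      refine card_le_card_of_injOn Prod.snd (fun v hv => ?_) fun v hv v' hv' e => ?_
      · simp only [W, coe_filter, mem_filter, mem_univ, true_and, Set.mem_ofPred_eq] at hv ⊢
        exact hv.2 ▸ hv.1
      · simp only [coe_filter, Set.mem_ofPred_eq] at hv hv'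
        exact Prod.ext (hv.2.trans hv'.2.symm) e
    refine le_trans ?_ e1
    rw [show a * (Bd (y, y')).card = (Bd (y, y') ×ˢ (univ : Finset (Fin a))).card by
      rw [card_product, card_fin, mul_comm]]
    refine card_le_card_of_injOn (fun v => (Function.update v.1 y v.2, v.1 y))
      (fun v hv => ?_) fun v _ v' _ e => ?_
    · simp only [W, Bd, coe_product, coe_filter, mem_univ, true_and, Set.mem_prod,
        Set.mem_ofPred_eq] at hv ⊢
      rw [Function.update_of_ne hv.1.1.symm]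
      exact hv.1.2
    · simp only [Prod.mk.injEq] at e
      have e2 := congrFun e.1 y
      simp only [Function.update_self] at e2
      refine Prod.ext (funext fun x => ?_) e2
      by_cases hx : x = y
      · rw [hx]; exact e.2
      · simpa only [Function.update_of_ne hx] using congrFun e.1 x
  have h0 : 0 < a := by omega
  have : Nonempty (Fin a) := ⟨⟨0, h0⟩⟩
  have h2 : (univ.biUnion Bd).card < (univ : Finset (ι → Fin a)).card := by
    refine Nat.lt_of_mul_lt_mul_left (a := a) ?_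
    calc a * (univ.biUnion Bd).card ≤ a * ∑ z, (Bd z).card := by gcongr; exact card_biUnion_le
      _ ≤ ∑ _z : ι × ι, t * Fintype.card (ι → Fin a) := by
          rw [mul_sum]; exact sum_le_sum fun z _ => h1 z
      _ = Fintype.card ι ^ 2 * t * Fintype.card (ι → Fin a) := by
          rw [sum_const, card_univ, Fintype.card_prod, smul_eq_mul]; ring
      _ < _ := by rw [card_univ]; exact Nat.mul_lt_mul_of_pos_right ha Fintype.card_pos
  obtain ⟨c, -, hc⟩ := exists_mem_notMem_of_card_lt_card h2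
  exact ⟨c, fun y y' hy hbad => hc (mem_biUnion.2 ⟨(y, y'), mem_univ _,
    mem_filter.2 ⟨mem_univ _, hy, hbad⟩⟩)⟩

theorem select {H : Finset Y} {V : Str → Bool} {K : Finset Str} {a t : ℕ} (ht : E.Small H t)
    (h : ∀ y ∈ H, E.Big {y} V K a) (ha : H.card ^ 2 * t < a) :
    ∃ c : H → Pth Y, (∀ y : H, E.ok y (c y).S (c y).σ ∧ E.Alive V (c y) ∧ Disjoint (E.τ (c y)) K) ∧
      ∀ y y', y ≠ y' → Disjoint (E.τ (c y)) (c y').S := by
  have : ∀ y : H, ∃ F, E.Good {y.1} V K F ∧ ∃ f : Fin a → Pth Y, Function.Injective f ∧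
      ∀ i, f i ∈ F := fun y => by
    obtain ⟨F, h1, h2⟩ := h y y.2
    obtain ⟨f⟩ : Nonempty (Fin a ↪ F) :=
      Function.Embedding.nonempty_of_card_le (by simpa using h2)
    exact ⟨F, h1, fun i => f i, Subtype.val_injective.comp f.injective, fun i => (f i).2⟩
  choose F hF f hf hm using this
  have hy : ∀ y i, (f y i).y = y := fun y i => ((hF y).1 _ (hm y i)).2.1
  obtain ⟨c, hc⟩ := choose_idx (t := t) (fun y i y' i' => ¬ Disjoint (E.τ (f y i)) (f y' i').S)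
    (fun y y' i' => by
      refine le_trans ?_ ((card_hit (hF y).2 (f y' i').S).trans
        (ht y' y'.2 _ (f y' i').σ (hy y' i' ▸ ((hF y').1 _ (hm y' i')).1)))
      exact card_le_card_of_injOn (f y) (fun i hi => mem_coe.2 (mem_filter.2
        ⟨hm y i, by simpa using hi⟩)) (hf y).injOn) (by simpa using ha)
  exact ⟨fun y => f y (c y), fun y => ⟨hy y (c y) ▸ ((hF y).1 _ (hm y _)).1,
    ((hF y).1 _ (hm y _)).2.2⟩, fun y y' e => not_not.1 (hc y y' e)⟩

theorem window {j₀ j₁ : ℕ} (hj : j₀ ≤ j₁) {R u : ℕ → ℕ} {X : ℕ → Finset Y} {Rw : ℕ → Finset Str}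
    {pos : Str → Y → Str} (h7 : ∀ ρ y, E.row (pos ρ y) = ρ) (hu : u j₁ = 1) (hu0 : 0 < u j₀)
    (h : ∀ i, j₀ ≤ i → i < j₁ → (X i).card ≤ 2 ^ i ∧ E.Small (X i) (2 ^ i) ∧
      (4096 * (2 ^ i) ^ 5) ^ (i + 1) * (R (i + 1) + 1 + R (i + 1)) ≤ R i ∧
      u i = (64 * (2 ^ i) ^ 2) ^ (i + 1) * u (i + 1) ∧ (∀ ρ ∈ Rw i, E.ω ρ = R (i + 1) + 1) ∧
      4096 * (2 ^ j₀) ^ 5 * R j₀ < (Rw i).card * (R (i + 1) + 1) ∧ ∀ ρ, Set.InjOn (pos ρ) (X i))
    (V₀ : Str → Bool) : ∃ s : St Y, (∀ x, R j₀ < E.ω (E.row x) → s.V x = V₀ x) ∧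
      (∀ x ∈ s.K, x ∈ E.U) ∧ s.K.card ≤ 64 * (2 ^ j₀) ^ 3 * u j₀ ∧
      (∀ i, j₀ ≤ i → i < j₁ → ∃ ρ ∈ Rw i, Table pos (X i) ρ s) ∧
      (∀ p : Pth Y, E.ok p.y p.S p.σ → p.y ∈ s.B → E.Alive s.V p → ¬ Disjoint (E.τ p) s.K) ∧
      s.H.card ≤ 2 ^ j₁ ∧ E.Small s.H (2 ^ j₁) ∧
      ∀ Q : Finset Str, Q.card ≤ 2 ^ j₁ → ∃ c : s.H → Pth Y,
        (∀ y : s.H, E.ok y (c y).S (c y).σ ∧ E.Alive s.V (c y) ∧ Disjoint (E.τ (c y)) (s.K ∪ Q)) ∧
        ∀ y y', y ≠ y' → Disjoint (E.τ (c y)) (c y').S := by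
  obtain ⟨s, a1, a2, a3, -, -, a6, a7⟩ := window_aux (C := 64 * (2 ^ j₀) ^ 3 * u j₀) h7 (j₁ - j₀)
    j₀ ⟨V₀, ∅, ∅, ∅, ∅⟩ (by omega) h (fun y hy => by simp at hy) (by simp)
    ⟨fun y hy => by simp at hy, fun V' _ ⟨F, hF, hc⟩ => by
      obtain ⟨p, hp⟩ := card_pos.1 (show 0 < F.card by omega)
      simpa using (hF.1 p hp).2.1, by simp, by simp [wt], by simp⟩
  set T := 2 ^ j₁
  have hT : 1 ≤ T := Nat.one_le_two_pow
  rw [hu] at a1
  obtain ⟨b1, b2, b3, -, b5⟩ := a1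
  obtain ⟨V₁, K₁, Fb₁, c1, -, c3, c4, c5, c6, c7⟩ := stepB (s := 2) (r := 0) (ρ := 1) (c := 1)
    (a2.mono (by simp) le_rfl)
    (b2.move (Chg.refl s.Fb 0 s.V) Subset.rfl (by omega) Subset.rfl le_rfl) le_rfl le_rfl
  obtain rfl : V₁ = s.V := funext fun x => c6.frozen (E.ω_pos _)
  have p3 : T ≤ T ^ 3 := Nat.le_self_pow (by norm_num) _
  have hs : E.Small s.H T := a2.mono (by simp) le_rfl
  refine ⟨⟨s.V, K₁, s.Fb, s.H, s.B⟩, a6, fun x hx => (c5 x hx).elim (b5 x) id, by dsimp only; omega,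
    a7, fun p e1 e2 e3 e4 => c7 s.V (Chg.refl _ _ _) ⟨{p}, ⟨fun q hq => ?_, fun q hq q' hq' e => ?_⟩,
      by simp⟩, a3, hs, fun Q hQ => ?_⟩
  · rw [mem_singleton.1 hq]
    exact ⟨e1, e2, e3, e4⟩
  · exact (e ((mem_singleton.1 hq).trans (mem_singleton.1 hq').symm)).elim
  · refine select hs (a := T ^ 3 + 1) (fun y hy => ?_) ?_
    · have := card_union_le K₁ Q
      exact ((b1 y hy s.V (Chg.refl _ _ _)).mono Subset.rfl (a' := T ^ 3 + 1 + 3 * T)
        (by omega)).kill (c3.trans subset_union_left) (by dsimp only; omega)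
    · calc s.H.card ^ 2 * T ≤ T ^ 2 * T := by gcongr
        _ < _ := by rw [← pow_succ]; exact Nat.lt_succ_self _

end Env

end Pool.Agent.MP_8c2300_lc.H70

end MrgPart1

-- ======== part 2: formerly Pool.Agent.MP_8c2300_lc.h70.Win
section MrgPart2

/-!
The layout of the oracle and the numerical data of one window.
-/

namespace Pool.Agent.MP_8c2300_lc.H70

open Finset Classical Pool.Agent.PolyT N487b59b3

/-- The position of the entry for machine `i` and input `x` in the row `ρ`. -/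
def rp (i : ℕ) (ρ x : Str) : Str := false :: bitEncode ((i, ρ, x) : ℕ × Str × Str)

theorem rp_inj {i i' : ℕ} {ρ ρ' x x' : Str} (h : rp i ρ x = rp i' ρ' x') :
    i = i' ∧ ρ = ρ' ∧ x = x' := by
  simpa using bitEncode_injective (List.cons.inj h).2

theorem length_rp (i : ℕ) (ρ x : Str) : ρ.length ≤ (rp i ρ x).length := by
  simp only [rp, List.length_cons, length_enc_pair, Poly.enc_bools_length]
  omega

/-- The length of the names of the rows at level `m`. -/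
def aa (m : ℕ) : ℕ := 150 * (m + 1) ^ 3

theorem aa_inj {m m' : ℕ} (h : aa m = aa m') : m = m' := by
  unfold aa at h
  have := Nat.pow_left_injective (by norm_num : 3 ≠ 0) (Nat.eq_of_mul_eq_mul_left (by norm_num) h)
  omega

theorem le_aa (m : ℕ) : m ≤ aa m := by
  have : m + 1 ≤ (m + 1) ^ 3 := Nat.le_self_pow (by norm_num) _
  unfold aa
  omega

/-- The row of a position. -/
noncomputable def rowOf (s : Str) : Str :=
  if h : ∃ z : ℕ × Str × Str, s = rp z.1 z.2.1 z.2.2 then h.choose.2.1 else []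

theorem rowOf_rp (i : ℕ) (ρ x : Str) : rowOf (rp i ρ x) = ρ := by
  have h : ∃ z : ℕ × Str × Str, rp i ρ x = rp z.1 z.2.1 z.2.2 := ⟨(i, ρ, x), rfl⟩
  rw [rowOf, dif_pos h]
  exact (rp_inj h.choose_spec).2.1.symm

theorem eq_rp {s : Str} (h : rowOf s ≠ []) : ∃ i x, s = rp i (rowOf s) x := by
  by_cases h' : ∃ z : ℕ × Str × Str, s = rp z.1 z.2.1 z.2.2
  · obtain ⟨z, rfl⟩ := h'
    exact ⟨z.1, z.2.2, by rw [rowOf_rp]⟩
  · exact (h (dif_neg h')).elim

/-- The level of a position. -/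
def Lev (s : Str) (m : ℕ) : Prop :=
  (∃ i ρ x, s = rp i ρ x ∧ ρ.length = aa m + 1) ∨ ∃ b w, s = true :: b :: w ∧ w.length = 2 ^ m

theorem Lev.le {s : Str} {m : ℕ} (h : Lev s m) : m ≤ s.length := by
  rcases h with ⟨i, ρ, x, rfl, h⟩ | ⟨b, w, rfl, h⟩
  · have := length_rp i ρ x
    have := le_aa m
    omega
  · have : m < 2 ^ m := Nat.lt_two_pow_self
    simp only [List.length_cons]
    omega

theorem Lev.uniq {s : Str} {m m' : ℕ} (h : Lev s m) (h' : Lev s m') : m = m' := by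
  rcases h with ⟨i, ρ, x, rfl, h⟩ | ⟨b, w, rfl, h⟩ <;>
    rcases h' with ⟨i', ρ', x', e, h'⟩ | ⟨b', w', e, h'⟩
  · obtain ⟨-, rfl, -⟩ := rp_inj e
    exact aa_inj (by omega)
  · simp [rp] at e
  · simp [rp] at e
  · simp only [List.cons.injEq, true_and] at e
    exact Nat.pow_right_injective le_rfl (by rw [← h, ← h', e.2] : 2 ^ m = 2 ^ m')

/-- The positions that are still undecided. -/
def Free (n : ℕ) (Fx : Finset Str) (s : Str) : Prop := s ∉ Fx ∧ ∃ m, n ≤ m ∧ Lev s m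

/-- There is a witness on side `b` at level `m`. -/
def Wit (b : Bool) (m : ℕ) (A : Str → Bool) : Prop :=
  ∃ w : Str, w.length = 2 ^ m ∧ A (true :: b :: w) = true

/-- From level `n` on, the witnesses have their default values. -/
def Dflt (n : ℕ) (A : Str → Bool) : Prop := ∀ m, n ≤ m → ∀ (b : Bool) (w : Str),
  w.length = 2 ^ m → (A (true :: b :: w) = true ↔ b = false ∧ w = List.replicate (2 ^ m) false)

theorem wit_of_dflt {m : ℕ} {A : Str → Bool} (h : ∀ (b : Bool) (w : Str), w.length = 2 ^ m →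
    (A (true :: b :: w) = true ↔ b = false ∧ w = List.replicate (2 ^ m) false)) :
    Wit true m A ↔ ¬ Wit false m A :=
  iff_of_false (fun ⟨w, h1, h2⟩ => by simpa using ((h _ w h1).1 h2).1)
    (not_not.2 ⟨_, List.length_replicate, (h _ _ List.length_replicate).2 ⟨rfl, rfl⟩⟩)

/-- The inputs of block `j`. -/
noncomputable def inputs (bd : ℕ → Str → ℕ) (j : ℕ) : Finset (Bool × ℕ × Str) :=
  (({decide (j % 2 = 1)} : Finset Bool) ×ˢ range (j / 2) ×ˢ (range (j / 2)).biUnion rows).filter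
    (fun y => bd y.2.1 y.2.2 ≤ 2 ^ (j / 2))

theorem mem_inputs {bd : ℕ → Str → ℕ} {j : ℕ} {y : Bool × ℕ × Str} : y ∈ inputs bd j ↔
    y.1 = decide (j % 2 = 1) ∧ y.2.1 < j / 2 ∧ y.2.2.length < j / 2 ∧
      bd y.2.1 y.2.2 ≤ 2 ^ (j / 2) := by
  simp only [inputs, mem_filter, mem_product, mem_singleton, mem_range, mem_biUnion, mem_rows,
    exists_eq_right', and_assoc]

theorem card_inputs (bd : ℕ → Str → ℕ) (j : ℕ) : (inputs bd j).card ≤ 2 ^ j := by
  have h1 : ∀ m, ((range m).biUnion rows).card ≤ 2 ^ m := fun m => by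
    refine card_biUnion_le.trans ?_
    simp only [card_rows]
    exact (Nat.geomSum_lt le_rfl fun k hk => mem_range.1 hk).le
  refine (card_filter_le _ _).trans ?_
  rw [card_product, card_product, card_singleton, card_range, one_mul]
  calc _ ≤ 2 ^ (j / 2) * 2 ^ (j / 2) := Nat.mul_le_mul Nat.lt_two_pow_self.le (h1 _)
    _ ≤ _ := by rw [← pow_add]; exact Nat.pow_le_pow_right (by norm_num) (by omega)

/-- The rows of block `j` that are still untouched. -/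
noncomputable def rowsAt (Fx : Finset Str) (j : ℕ) : Finset Str :=
  (rows (aa (j / 2))).image (fun r => decide (j % 2 = 1) :: r) \ Fx.image rowOf

theorem length_rowsAt {Fx : Finset Str} {j : ℕ} {ρ : Str} (h : ρ ∈ rowsAt Fx j) :
    ρ.length = aa (j / 2) + 1 := by
  obtain ⟨r, hr, rfl⟩ := mem_image.1 (mem_sdiff.1 h).1
  simpa using hr

theorem rowsAt_uniq {Fx : Finset Str} {j j' : ℕ} {ρ : Str} (h : ρ ∈ rowsAt Fx j)
    (h' : ρ ∈ rowsAt Fx j') : j = j' := by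
  have e := aa_inj (Nat.add_right_cancel ((length_rowsAt h).symm.trans (length_rowsAt h')))
  obtain ⟨r, -, rfl⟩ := mem_image.1 (mem_sdiff.1 h).1
  obtain ⟨r', -, e'⟩ := mem_image.1 (mem_sdiff.1 h').1
  have := (List.cons.inj e').1
  rw [decide_eq_decide] at this
  omega

theorem card_rowsAt (Fx : Finset Str) (j : ℕ) :
    2 ^ aa (j / 2) ≤ (rowsAt Fx j).card + Fx.card := by
  have h1 := le_card_sdiff (Fx.image rowOf)
    ((rows (aa (j / 2))).image (fun r => decide (j % 2 = 1) :: r))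
  rw [card_image_of_injective _ (List.cons_injective), card_rows] at h1
  have := card_image_le (s := Fx) (f := rowOf)
  unfold rowsAt
  omega

/-- The row budgets. -/
def RR (j₁ i : ℕ) : ℕ := 2 ^ (15 * (j₁ ^ 3 - i ^ 3))

/-- The scales. -/
def uu (j₁ i : ℕ) : ℕ := ∏ k ∈ Ico i j₁, (64 * (2 ^ k) ^ 2) ^ (k + 1)

theorem RR_step {j₁ i : ℕ} (h : i < j₁) :
    (4096 * (2 ^ i) ^ 5) ^ (i + 1) * (RR j₁ (i + 1) + 1 + RR j₁ (i + 1)) ≤ RR j₁ i := by
  have h1 : (i + 1) ^ 3 ≤ j₁ ^ 3 := Nat.pow_le_pow_left h 3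
  have h2 : (i + 1) ^ 3 = i ^ 3 + (3 * (i * i) + 3 * i + 1) := by ring
  have h3 : 1 ≤ RR j₁ (i + 1) := Nat.one_le_two_pow
  calc _ ≤ (4096 * (2 ^ i) ^ 5) ^ (i + 1) * (4 * RR j₁ (i + 1)) := by gcongr; omega
    _ = 2 ^ ((5 * (i * i) + 17 * i + 14) + 15 * (j₁ ^ 3 - (i + 1) ^ 3)) := by
      rw [RR, show (4096 : ℕ) = 2 ^ 12 by norm_num, ← pow_mul, ← pow_add, ← pow_mul,
        show (4 : ℕ) = 2 ^ 2 by norm_num, ← pow_add, ← pow_add]
      congr 1
      ring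
    _ ≤ _ := Nat.pow_le_pow_right (by norm_num) (by omega)

theorem uu_le (j₁ i : ℕ) : uu j₁ i ≤ 2 ^ (6 * j₁ ^ 3) := by
  have h1 : ∀ j, ∏ k ∈ range j, (64 * (2 ^ k) ^ 2) ^ (k + 1) ≤ 2 ^ (6 * j ^ 3) := by
    intro j
    induction j with
    | zero => simp
    | succ j ih =>
      rw [prod_range_succ]
      calc _ ≤ 2 ^ (6 * j ^ 3) * (64 * (2 ^ j) ^ 2) ^ (j + 1) := by gcongr
        _ = 2 ^ (6 * j ^ 3 + (6 + j * 2) * (j + 1)) := by
          rw [show (64 : ℕ) = 2 ^ 6 by norm_num, ← pow_mul, ← pow_add, ← pow_mul, ← pow_add]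
        _ ≤ _ := Nat.pow_le_pow_right (by norm_num) (by nlinarith [Nat.zero_le (j * j)])
  refine le_trans (prod_le_prod_of_subset_of_one_le' (fun k hk => ?_) fun k _ _ => ?_) (h1 j₁)
  · exact mem_range.2 (mem_Ico.1 hk).2
  · exact Nat.one_le_pow _ _ (by positivity)

theorem capacity {n n' i : ℕ} {Fx : Finset Str} (hF : Fx.card ≤ 2 ^ (60 * n ^ 3))
    (h1 : 2 * n ≤ i) (h2 : i < 2 * n') : 4096 * (2 ^ (2 * n)) ^ 5 * RR (2 * n') (2 * n) <
      (rowsAt Fx i).card * (RR (2 * n') (i + 1) + 1) := by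
  have e1 := card_rowsAt Fx i
  set m := i / 2
  have e2 : n ^ 3 ≤ (m + 1) ^ 3 := Nat.pow_le_pow_left (by omega) 3
  have e3 : m + 1 ≤ (m + 1) ^ 3 := Nat.le_self_pow (by norm_num) _
  have e4 : (i + 1) ^ 3 ≤ 8 * (m + 1) ^ 3 := by
    calc (i + 1) ^ 3 ≤ (2 * (m + 1)) ^ 3 := Nat.pow_le_pow_left (by omega) 3
      _ = _ := by ring
  have e5 : (i + 1) ^ 3 ≤ (2 * n') ^ 3 := Nat.pow_le_pow_left h2 3
  obtain ⟨e, he⟩ : ∃ e, aa m = e + 1 := ⟨aa m - 1, by unfold aa; omega⟩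
  have e6 : 2 ^ e ≤ (rowsAt Fx i).card := by
    have : 2 ^ (60 * n ^ 3) ≤ 2 ^ e := Nat.pow_le_pow_right (by norm_num) (by unfold aa at he; omega)
    rw [he, pow_succ] at e1
    omega
  calc _ = 2 ^ (12 + 2 * n * 5 + 15 * ((2 * n') ^ 3 - (2 * n) ^ 3)) := by
        rw [RR, show (4096 : ℕ) = 2 ^ 12 by norm_num, ← pow_mul, ← pow_add, ← pow_add]
    _ ≤ 2 ^ (e + 15 * ((2 * n') ^ 3 - (i + 1) ^ 3)) :=
        Nat.pow_le_pow_right (by norm_num) (by unfold aa at he; omega)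
    _ < 2 ^ e * (RR (2 * n') (i + 1) + 1) := by
        rw [pow_add, RR]
        exact Nat.mul_lt_mul_of_pos_left (Nat.lt_succ_self _) (by positivity)
    _ ≤ _ := Nat.mul_le_mul_right _ e6

theorem size_bound {n n' a b c d : ℕ} (h : n < n') (ha : a ≤ 2 ^ (60 * n ^ 3))
    (hb : b ≤ 64 * (2 ^ (2 * n)) ^ 3 * uu (2 * n') (2 * n)) (hc : c ≤ 2 ^ n')
    (hd : d ≤ 2 ^ (2 * n') * 2 ^ (2 * n')) : a + b + c + d ≤ 2 ^ (60 * n' ^ 3) := by
  have e1 : n ^ 3 < n' ^ 3 := Nat.pow_lt_pow_left h (by norm_num)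
  have e2 : n' ≤ n' ^ 3 := Nat.le_self_pow (by norm_num) _
  obtain ⟨e, he⟩ : ∃ e, 60 * n' ^ 3 = e + 2 := ⟨60 * n' ^ 3 - 2, by omega⟩
  have k : ∀ x, x ≤ e → 2 ^ x ≤ 2 ^ e := fun x hx => Nat.pow_le_pow_right (by norm_num) hx
  have e3 : b ≤ 2 ^ e := by
    refine hb.trans (le_trans ?_ (k (6 + 2 * n * 3 + 6 * (2 * n') ^ 3) ?_))
    · rw [pow_add, pow_add, ← pow_mul]
      exact Nat.mul_le_mul (by norm_num) (uu_le _ _)
    · rw [mul_pow]
      omega
  have e4 := ha.trans (k _ (by omega))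
  have e5 := hc.trans (k _ (by omega))
  rw [← pow_add] at hd
  have e6 := hd.trans (k _ (by omega))
  rw [he, pow_add]
  omega

end Pool.Agent.MP_8c2300_lc.H70

end MrgPart2

-- ======== part 3: formerly Pool.Agent.MP_8c2300_lc.h70.Core
section MrgPart3

/-!
One window of the construction, and the limit oracle.
-/

namespace Pool.Agent.MP_8c2300_lc.H70

open Finset Classical

theorem Env.mem_τ {Y : Type} {E : Env Y} {p : Pth Y} {s : Str} :
    s ∈ E.τ p ↔ s ∈ p.S ∧ s ∈ E.U ∧ p.σ s = true := mem_filter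

/-- A finite condition at level `n`. -/
def IsCond (n : ℕ) (A : Str → Bool) (Fx : Finset Str) : Prop :=
  Fx.card ≤ 2 ^ (60 * n ^ 3) ∧ (∀ s ∈ Fx, s.length ≤ 2 ^ n) ∧ Dflt n A

/-- Some row of level `m` holds the right table. -/
def Coded (yes : ℕ → Str → Str → Alg) (bd : ℕ → Str → ℕ) (m : ℕ) (A : Str → Bool) : Prop :=
  ∃ ρ : Str, ρ.length = aa m + 1 ∧ ∀ i < m, ∀ x : Str, x.length < m → bd i x ≤ 2 ^ m →
    (A (rp i ρ x) = true ↔ ∃ w, (yes i x w).val A)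

theorem win {yes : ℕ → Str → Str → Alg} {bd : ℕ → Str → ℕ}
    (hy : ∀ i x w, (yes i x w).Bdd (bd i x)) {n n' : ℕ} (hn : n < n') (hw : 60 * n' ^ 3 < 2 ^ n)
    {A : Str → Bool} {Fx : Finset Str} (hc : IsCond n A Fx) {t : Alg} (ht : t.Bdd (2 ^ n')) :
    ∃ A' Fx', IsCond n' A' Fx' ∧ Fx ⊆ Fx' ∧ (∀ s, ¬ Free n Fx s → A' s = A s) ∧
      ∀ A'' : Str → Bool, (∀ s, ¬ Free n' Fx' s → A'' s = A' s) →
        (∀ m, n ≤ m → m < n' → Coded yes bd m A'' ∧ (Wit true m A'' ↔ ¬ Wit false m A'')) ∧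
        (t.val A'' ↔ ¬ Wit true n A'') := by
  obtain ⟨hF1, hF2, hD⟩ := hc
  have hn1 : 2 ^ n + 2 ≤ 2 ^ n' := by
    have e1 : 1 ≤ n' ^ 3 := Nat.one_le_pow _ _ (by omega)
    have e2 : 2 ^ (n + 1) ≤ 2 ^ n' := Nat.pow_le_pow_right (by norm_num) hn
    omega
  let E : Env (Bool × ℕ × Str) :=
    { U := {s | (s.length ≤ 2 ^ n' ∧ s ∉ Fx ∧ ∃ i ρ x m, n' ≤ m ∧ s = rp i ρ x ∧
        ρ.length = aa m + 1) ∨ ∃ b w, s = true :: b :: w ∧ w.length = 2 ^ n}
      row := rowOf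
      ω := fun ρ => if h : ∃ j, 2 * n ≤ j ∧ j < 2 * n' ∧ ρ ∈ rowsAt Fx j then
        RR (2 * n') (h.choose + 1) + 1 else RR (2 * n') (2 * n) + 1
      ω_pos := fun ρ => by split_ifs <;> omega
      ok := fun y S σ => bd y.2.1 y.2.2 ≤ 2 ^ n' ∧
        (∀ w : Str, w.length = 2 ^ n → σ (true :: (!y.1) :: w) = false) ∧
        ∃ w, (yes y.2.1 y.2.2 w).val σ ∧ S = (yes y.2.1 y.2.2 w).qs σ }
  obtain ⟨s, a1, a2, a3, a4, a5, a6, a7, a8⟩ := Env.window (E := E) (j₀ := 2 * n) (j₁ := 2 * n')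
    (by omega) (R := RR (2 * n')) (u := uu (2 * n')) (X := inputs bd) (Rw := rowsAt Fx)
    (pos := fun ρ y => rp y.2.1 ρ y.2.2) (fun ρ y => rowOf_rp _ _ _) (by simp [uu])
    (prod_pos fun k _ => by positivity) (fun i h1 h2 => by
      refine ⟨card_inputs _ _, ?_, RR_step h2, prod_eq_prod_Ico_succ_bot h2 _, fun ρ hρ => ?_,
        capacity hF1 h1 h2, fun ρ y hy y' hy' e => ?_⟩
      · rintro y h3 S σ ⟨-, -, w, -, rfl⟩
        exact ((hy _ _ _ σ).1.trans (mem_inputs.1 h3).2.2.2).trans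
          (Nat.pow_le_pow_right (by norm_num) (by omega))
      · have h : ∃ j, 2 * n ≤ j ∧ j < 2 * n' ∧ ρ ∈ rowsAt Fx j := ⟨i, h1, h2, hρ⟩
        simp only [E, dif_pos h]
        rw [rowsAt_uniq h.choose_spec.2.2 hρ]
      · obtain ⟨e1, -, e2⟩ := rp_inj e
        exact Prod.ext ((mem_inputs.1 hy).1.trans (mem_inputs.1 hy').1.symm) (Prod.ext e1 e2)) A
  let V₀ : Str → Bool := fun x => if x ∈ E.U then false else s.V x
  let Q := t.qs V₀
  let b : Bool := decide (¬ t.val V₀)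
  have p1 : 2 ^ n' ≤ 2 ^ (2 * n') := Nat.pow_le_pow_right (by norm_num) (by omega)
  obtain ⟨c, c1, c2⟩ := a8 Q ((ht V₀).1.trans p1)
  let Fx' := Fx ∪ s.K ∪ Q ∪ univ.biUnion (fun y => (c y).S)
  have f1 : Fx ⊆ Fx' := fun x hx => by simp [Fx', hx]
  have f2 : s.K ⊆ Fx' := fun x hx => by simp [Fx', hx]
  have f3 : Q ⊆ Fx' := fun x hx => by simp [Fx', hx]
  have f4 : ∀ y, (c y).S ⊆ Fx' := fun y x hx => mem_union_right _ (mem_biUnion.2 ⟨y, mem_univ _, hx⟩)
  have f5 : Fx'.card ≤ 2 ^ (60 * n' ^ 3) := by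
    refine le_trans ?_ (size_bound hn hF1 a3 (ht V₀).1
      (d := (univ.biUnion (fun y => (c y).S)).card) ?_)
    · exact (card_union_le _ _).trans (Nat.add_le_add_right ((card_union_le _ _).trans
        (Nat.add_le_add_right (card_union_le _ _) _)) _)
    · refine (card_biUnion_le_card_mul _ _ _ fun (y : s.H) _ => a7 y y.2 _ _ (c1 y).1).trans ?_
      rw [card_univ, Fintype.card_coe]
      gcongr
  have f6 : ∀ x ∈ Fx', x.length ≤ 2 ^ n' := by
    intro x hx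
    simp only [Fx', mem_union, mem_biUnion] at hx
    rcases hx with ((hx | hx) | hx) | ⟨y, -, hx⟩
    · have := hF2 x hx
      omega
    · rcases a2 x hx with h | ⟨b, w, rfl, h⟩
      · exact h.1
      · simp only [List.length_cons]
        omega
    · exact (ht V₀).2 x hx
    · obtain ⟨e1, -, w, -, e2⟩ := (c1 y).1
      exact ((hy _ _ _ _).2 x (e2 ▸ hx)).trans e1
  obtain ⟨w₀, w1, w2⟩ : ∃ w ∈ rows (2 ^ n), w ∉ Fx'.image (fun x => x.drop 2) := by
    refine exists_mem_notMem_of_card_lt_card ?_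
    rw [card_rows]
    exact (card_image_le.trans f5).trans_lt (Nat.pow_lt_pow_right (by norm_num) hw)
  rw [mem_rows] at w1
  have w3 : true :: b :: w₀ ∉ Fx' := fun h => w2 (mem_image.2 ⟨_, h, rfl⟩)
  let A' : Str → Bool := fun x => if x ∈ E.U then
    decide ((∃ y : s.H, y.1.1 = b ∧ x ∈ E.τ (c y)) ∨ x = true :: b :: w₀) else s.V x
  have g1 : ∀ x, x ∉ E.U → A' x = s.V x := fun x hx => if_neg hx
  have g2 : ∀ x ∈ s.K ∪ Q, x ∈ E.U → A' x = false := fun x hx hU => by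
    simp only [A', if_pos hU, decide_eq_false_iff_not]
    rintro (⟨y, -, h⟩ | rfl)
    · exact disjoint_left.1 (c1 y).2.2 h hx
    · exact w3 (union_subset f2 f3 hx)
  have g3 : ∀ (b' : Bool) (w : Str), w.length ≠ 2 ^ n → A' (true :: b' :: w) = A (true :: b' :: w) := by
    intro b' w h
    rw [g1, a1]
    · have e : rowOf (true :: b' :: w) = [] := by
        by_contra e
        obtain ⟨i, x, e'⟩ := eq_rp e
        simp [rp] at e'
      have e' : ¬ ∃ j, 2 * n ≤ j ∧ j < 2 * n' ∧ [] ∈ rowsAt Fx j := fun ⟨j, _, _, h⟩ => by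
        simpa using length_rowsAt h
      simp only [E, e, dif_neg e']
      omega
    · rintro (⟨-, -, i, ρ, x, m, -, e, -⟩ | ⟨b'', w', e, e'⟩)
      · simp [rp] at e
      · simp only [List.cons.injEq, true_and] at e
        exact h (e.2 ▸ e')
  have g4 : ∀ w : Str, w.length = 2 ^ n → A' (true :: (!b) :: w) = false := fun w h => by
    have hU : true :: (!b) :: w ∈ E.U := Or.inr ⟨_, _, rfl, h⟩
    simp only [A', if_pos hU, decide_eq_false_iff_not]
    rintro (⟨y, e, h'⟩ | e)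
    · have := (c1 y).1.2.1 w h
      rw [e, (Env.mem_τ.1 h').2.2] at this
      cases this
    · simp at e
  have g5 : ∀ y : s.H, y.1.1 = b → ∀ x ∈ (c y).S, A' x = (c y).σ x := fun y e x hx => by
    by_cases hU : x ∈ E.U
    · cases h : (c y).σ x with
      | true =>
        simp only [A', if_pos hU, decide_eq_true_iff]
        exact Or.inl ⟨y, e, Env.mem_τ.2 ⟨hx, hU, h⟩⟩
      | false =>
        simp only [A', if_pos hU, decide_eq_false_iff_not]
        rintro (⟨y', -, h'⟩ | rfl)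
        · by_cases e' : y' = y
          · rw [e'] at h'
            simpa [h] using (Env.mem_τ.1 h').2.2
          · exact disjoint_left.1 (c2 y' y e') h' hx
        · exact w3 (f4 y hx)
    · rw [g1 x hU, (c1 y).2.1 x hx hU]
  refine ⟨A', Fx', ⟨f5, f6, fun m hm b' w h => ?_⟩, f1, fun x hx => ?_, fun A'' hA => ?_⟩
  · rw [g3 b' w (by rw [h]; exact fun e => by have := Nat.pow_right_injective le_rfl e; omega)]
    exact hD m (by omega) b' w h
  · rw [g1, a1]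
    · by_contra h
      by_cases e : ∃ j, 2 * n ≤ j ∧ j < 2 * n' ∧ rowOf x ∈ rowsAt Fx j
      · obtain ⟨j, e1, -, e3⟩ := e
        have e4 := length_rowsAt e3
        obtain ⟨i, z, e5⟩ := eq_rp (s := x) (fun e => by simp [e] at e4)
        exact hx ⟨fun e6 => (mem_sdiff.1 e3).2 (mem_image_of_mem _ e6), j / 2, by omega,
          Or.inl ⟨i, _, z, e5, e4⟩⟩
      · simp only [E, dif_neg e] at h
        omega
    · rintro (⟨-, e, i, ρ, z, m, e1, e2, e3⟩ | ⟨b', w, rfl, e⟩)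
      · exact hx ⟨e, m, by omega, Or.inl ⟨i, ρ, z, e2, e3⟩⟩
      · refine hx ⟨fun e' => ?_, n, le_rfl, Or.inr ⟨b', w, rfl, e⟩⟩
        have := hF2 _ e'
        simp only [List.length_cons] at this
        omega
  have k1 : ∀ x ∈ Fx', A'' x = A' x := fun x hx => hA x fun h => h.1 hx
  have k2 : ∀ x m, m < n' → Lev x m → A'' x = A' x := fun x m hm h => hA x
    fun ⟨_, m', e1, e2⟩ => by have := h.uniq e2; omega
  have k3 : ∀ x : Str, x.length ≤ 2 ^ n' → x ∉ E.U → A'' x = s.V x := fun x h1 h2 => by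
    rw [← g1 x h2]
    refine hA x ?_
    rintro ⟨e, m, e1, ⟨i, ρ, z, e2, e3⟩ | ⟨b', w, rfl, e3⟩⟩
    · exact h2 (Or.inl ⟨h1, fun e' => e (f1 e'), i, ρ, z, m, e1, e2, e3⟩)
    · have : 2 ^ n' ≤ 2 ^ m := Nat.pow_le_pow_right (by norm_num) e1
      simp only [List.length_cons] at h1
      omega
  have k4 : ∀ w : Str, w.length = 2 ^ n → A'' (true :: (!b) :: w) = false := fun w h => by
    rw [k2 _ n hn (Or.inr ⟨_, _, rfl, h⟩), g4 w h]
  have k5 : Wit b n A'' := ⟨w₀, w1, by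
    have hU : true :: b :: w₀ ∈ E.U := Or.inr ⟨_, _, rfl, w1⟩
    rw [k2 _ n hn (Or.inr ⟨_, _, rfl, w1⟩)]
    simp [A', hU]⟩
  have k6 : ¬ Wit (!b) n A'' := fun ⟨w, h1, h2⟩ => by simp [k4 w h1] at h2
  refine ⟨fun m h1 h2 => ⟨?_, ?_⟩, ?_⟩
  · have hj : (2 * m + b.toNat) / 2 = m := by have := b.toNat_le; omega
    obtain ⟨ρ, r1, r2⟩ := a4 (2 * m + b.toNat) (by omega) (by have := b.toNat_le; omega)
    have r3 := length_rowsAt r1
    rw [hj] at r3
    refine ⟨ρ, r3, fun i hi x hx hb => ?_⟩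
    have r4 : A'' (rp i ρ x) = s.V (rp i ρ x) := by
      rw [k2 _ m h2 (Or.inl ⟨i, ρ, x, rfl, r3⟩), g1]
      rintro (⟨-, -, i', ρ', x', m', e1, e2, e3⟩ | ⟨b', w, e, -⟩)
      · obtain ⟨-, rfl, -⟩ := rp_inj e2
        have := aa_inj (show aa m = aa m' by omega)
        omega
      · simp [rp] at e
    have hb' : bd i x ≤ 2 ^ n' := hb.trans (Nat.pow_le_pow_right (by norm_num) h2.le)
    rcases r2 (b, i, x) (mem_inputs.2 (by
      rw [hj]
      exact ⟨by cases b <;> simp, hi, hx, hb⟩)) with ⟨r5, r6⟩ | ⟨r5, r6⟩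
    · refine iff_of_true (r4.trans r5) ?_
      obtain ⟨-, -, w, e1, e2⟩ := (c1 ⟨_, r6⟩).1
      refine ⟨w, ((yes i x w).use _ A'' fun z hz => ?_).1.2 e1⟩
      rw [← e2] at hz
      rw [k1 z (f4 _ hz), g5 ⟨_, r6⟩ rfl z hz]
    · refine iff_of_false (by rw [r4, r5]; simp) fun ⟨w, hv⟩ => ?_
      refine a5 ⟨(b, i, x), (yes i x w).qs A'', A'', 0⟩ ⟨hb', k4, w, hv, rfl⟩ r6
        (fun z hz hU => k3 z (((hy _ _ _ _).2 z hz).trans hb') hU) (disjoint_left.2 fun z hz hK => ?_)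
      have := (Env.mem_τ.1 hz).2
      dsimp only at this
      rw [k1 z (f2 hK), g2 z (mem_union_left _ hK) this.1] at this
      simp at this
  · rcases h1.eq_or_lt with rfl | h1
    · cases hb : b with
      | true => rw [hb] at k5 k6; exact iff_of_true k5 k6
      | false => rw [hb] at k5 k6; exact iff_of_false k6 (not_not.2 k5)
    · refine wit_of_dflt fun b' w h => ?_
      rw [k2 _ m h2 (Or.inr ⟨_, _, rfl, h⟩),
        g3 b' w (by rw [h]; exact fun e => by have := Nat.pow_right_injective le_rfl e; omega)]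
      exact hD m h1.le b' w h
  · rw [(t.use V₀ A'' fun z hz => ?_).1]
    · by_cases hv : t.val V₀
      · have hb : b = false := by simp [b, hv]
        rw [hb] at k6
        exact iff_of_true hv k6
      · have hb : b = true := by simp [b, hv]
        rw [hb] at k5
        exact iff_of_false hv (not_not.2 k5)
    · rw [k1 z (f3 hz)]
      by_cases hU : z ∈ E.U
      · rw [g2 z (mem_union_right _ hz) hU]
        exact (if_pos hU).symm
      · rw [g1 z hU]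
        exact (if_neg hU).symm

theorem sched {n : ℕ} (h : 24 ≤ n) : n < 2 ^ (n / 4) ∧ 60 * (2 ^ (n / 4)) ^ 3 < 2 ^ n := by
  have h1 : ∀ q, 6 ≤ q → 4 * q + 4 ≤ 2 ^ q := fun q hq => by
    induction hq with
    | refl => norm_num
    | step _ ih => rw [pow_succ]; omega
  refine ⟨by have := h1 (n / 4) (by omega); omega, ?_⟩
  calc 60 * (2 ^ (n / 4)) ^ 3 < 2 ^ 6 * (2 ^ (n / 4)) ^ 3 :=
        Nat.mul_lt_mul_of_pos_right (by norm_num) (by positivity)
    _ ≤ _ := by rw [← pow_mul, ← pow_add]; exact Nat.pow_le_pow_right (by norm_num) (by omega)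

theorem core {yes : ℕ → Str → Str → Alg} {bd : ℕ → Str → ℕ}
    (hy : ∀ i x w, (yes i x w).Bdd (bd i x)) (t : ℕ → ℕ → Alg)
    (ht : ∀ e, ∃ N, ∀ n, N ≤ n → (t e n).Bdd (2 ^ 2 ^ (n / 4))) {n₀ : ℕ} (h₀ : 24 ≤ n₀) :
    ∃ A : Str → Bool, (∀ m, n₀ ≤ m → Coded yes bd m A) ∧ (∀ m, Wit true m A ↔ ¬ Wit false m A) ∧
      ∀ e, ∃ n, ((t e n).val A ↔ ¬ Wit true n A) := by
  let t₀ : Alg := ⟨fun _ => True, fun _ => ∅, fun _ _ _ => ⟨Iff.rfl, rfl⟩⟩
  let t' : ℕ → ℕ → Alg := fun j n =>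
    if (t j.unpair.1 n).Bdd (2 ^ 2 ^ (n / 4)) then t j.unpair.1 n else t₀
  have ht' : ∀ j n, (t' j n).Bdd (2 ^ 2 ^ (n / 4)) := fun j n => by
    simp only [t']
    split_ifs with h
    · exact h
    · exact fun _ => by simp [t₀]
  let C := {p : ℕ × (Str → Bool) × Finset Str // 24 ≤ p.1 ∧ IsCond p.1 p.2.1 p.2.2}
  have step : ∀ (j : ℕ) (p : C), ∃ q : C, p.1.1 < q.1.1 ∧ p.1.2.2 ⊆ q.1.2.2 ∧
      (∀ s, ¬ Free p.1.1 p.1.2.2 s → q.1.2.1 s = p.1.2.1 s) ∧
      ∀ A'' : Str → Bool, (∀ s, ¬ Free q.1.1 q.1.2.2 s → A'' s = q.1.2.1 s) →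
        (∀ m, p.1.1 ≤ m → m < q.1.1 → Coded yes bd m A'' ∧ (Wit true m A'' ↔ ¬ Wit false m A'')) ∧
        ((t' j p.1.1).val A'' ↔ ¬ Wit true p.1.1 A'') := by
    rintro j ⟨⟨n, A, Fx⟩, h1, h2⟩
    obtain ⟨A', Fx', k1, k2⟩ := win hy (sched h1).1 (sched h1).2 h2 (ht' j n)
    exact ⟨⟨(2 ^ (n / 4), A', Fx'), h1.trans (sched h1).1.le, k1⟩, (sched h1).1, k2⟩
  choose F hF1 hF2 hF3 hF4 using step
  let A₀ : Str → Bool := fun s => decide (∃ m, s = true :: false :: List.replicate (2 ^ m) false)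
  have hA₀ : Dflt 0 A₀ := fun m _ b w h => by
    simp only [A₀, decide_eq_true_iff, List.cons.injEq, true_and]
    refine ⟨fun ⟨m', e1, e2⟩ => ⟨e1, ?_⟩, fun e => ⟨m, e⟩⟩
    rw [e2, List.length_replicate] at h
    rw [e2, h]
  obtain ⟨P, hP0, hP⟩ : ∃ P : ℕ → C, (P 0).1 = (n₀, A₀, ∅) ∧ ∀ j, P (j + 1) = F j (P j) :=
    ⟨fun j => Nat.rec ⟨(n₀, A₀, ∅), h₀, by simp, by simp, fun m _ => hA₀ m (Nat.zero_le _)⟩
      (fun j p => F j p) j, rfl, fun _ => rfl⟩
  have mono : ∀ j j', j ≤ j' → ∀ s, ¬ Free (P j).1.1 (P j).1.2.2 s →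
      ¬ Free (P j').1.1 (P j').1.2.2 s ∧ (P j').1.2.1 s = (P j).1.2.1 s := by
    intro j j' h s hs
    induction h with
    | refl => exact ⟨hs, rfl⟩
    | step _ ih =>
      rw [Nat.succ_eq_add_one, hP]
      exact ⟨fun ⟨e1, m, e2, e3⟩ => ih.1 ⟨fun e => e1 (hF2 _ _ e), m, (hF1 _ _).le.trans e2, e3⟩,
        by rw [hF3 _ _ s ih.1, ih.2]⟩
  have hk : ∀ j, j ≤ (P j).1.1 := fun j => by
    induction j with
    | zero => exact Nat.zero_le _
    | succ j ih => exact hP j ▸ ih.trans_lt (hF1 j (P j))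
  let A : Str → Bool := fun s => (P (s.length + 1)).1.2.1 s
  have hA : ∀ j s, ¬ Free (P j).1.1 (P j).1.2.2 s → A s = (P j).1.2.1 s := fun j s hs => by
    rcases le_total j (s.length + 1) with h | h
    · exact (mono _ _ h s hs).2
    · refine (mono _ _ h s fun ⟨_, m, e1, e2⟩ => ?_).2.symm
      have := e2.le
      have := hk (s.length + 1)
      omega
  have key : ∀ m, n₀ ≤ m → Coded yes bd m A ∧ (Wit true m A ↔ ¬ Wit false m A) := fun m hm => by
    have hex : ∃ j, m < (P (j + 1)).1.1 := ⟨m, hk (m + 1)⟩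
    refine (hF4 _ _ A (hP _ ▸ hA (Nat.find hex + 1))).1 m ?_ (hP _ ▸ Nat.find_spec hex)
    rcases h : Nat.find hex with _ | j
    · rw [hP0]; exact hm
    · exact not_lt.1 (Nat.find_min hex (by omega : j < Nat.find hex))
  refine ⟨A, fun m hm => (key m hm).1, fun m => ?_, fun e => ?_⟩
  · by_cases hm : n₀ ≤ m
    · exact (key m hm).2
    · refine wit_of_dflt fun b w h => ?_
      rw [hA 0 _ fun ⟨_, m', e1, e2⟩ => hm (by
        rw [hP0, e2.uniq (Or.inr ⟨b, w, rfl, h⟩)] at e1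
        exact e1), hP0]
      exact hA₀ m (Nat.zero_le _) b w h
  · obtain ⟨N, hN⟩ := ht e
    have h1 := (hF4 _ _ A (hP _ ▸ hA (Nat.pair e N + 1))).2
    have h2 := hN _ ((Nat.right_le_pair e N).trans (hk _))
    simp only [t', Nat.unpair_pair, if_pos h2] at h1
    exact ⟨_, h1⟩

end Pool.Agent.MP_8c2300_lc.H70

end MrgPart3

-- ======== part 4: formerly Pool.Agent.MP_8c2300_lc.h70.Final
section MrgPart4

/-!
Oracle machines, and the final theorem.
-/

namespace Pool.Agent.MP_8c2300_lc.H70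

open Pool.Agent.PolyT Pool.Agent.H82 N487b59b3 Filter

theorem run_bdd (M : OM) (p : Polynomial ℕ) : ∃ D : ℕ, ∀ (s : ℕ → ℕ) (x w : Str) (e : ℕ),
    x.length + s x.length ≤ 2 ^ (e + 1) → (runAlg M p s x w).Bdd (2 ^ ((e + 1) * 2 ^ D)) := by
  obtain ⟨r, hr⟩ := ((poly_iff _).2 M.next_poly).bd
  obtain ⟨D, hD⟩ := poly_le_pow (M.q + r.comp (24 * Polynomial.X + 6 * p + 3 * M.q + 5))
  refine ⟨D, fun s x w e he A => ?_⟩
  have h1 := hD (2 ^ (e + 1)) (Nat.le_self_pow (by omega) 2)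
  rw [← pow_mul, Polynomial.eval_add, Polynomial.eval_comp] at h1
  have h2 := eval_mono M.q (show s x.length ≤ 2 ^ (e + 1) by omega)
  have h3 := eval_mono p (show s x.length ≤ 2 ^ (e + 1) by omega)
  simp only [runAlg]
  split_ifs with hw
  · refine ⟨Finset.card_image_le.trans (by rw [Finset.card_range]; omega), fun t ht => ?_⟩
    obtain ⟨j, hj, rfl⟩ := Finset.mem_image.1 ht
    refine (length_le_enc _).trans ((hr _).trans (le_trans (le_add_left (eval_mono r ?_)) h1))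
    have := Finset.mem_range.1 hj
    simp only [length_enc_pair, Poly.enc_bools_length, length_answers, List.length_replicate,
      Polynomial.eval_add, Polynomial.eval_mul, Polynomial.eval_X, Polynomial.eval_ofNat]
    omega
  · simp

theorem ev_small (k : ℕ) : ∃ N, ∀ n, N ≤ n → n ^ k ≤ 2 ^ (n / 5) := by
  obtain ⟨N, hN⟩ := eventually_atTop.1 (ev_pow (10 ^ k) k)
  refine ⟨5 * N + 5, fun n hn => le_trans ?_ (hN (n / 5) (by omega)).le⟩
  rw [← mul_pow]
  exact Nat.pow_le_pow_left (by omega) k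

theorem main : ∃ A : Str → Bool,
    (∀ k : ℕ, NT A (fun n => 2 ^ n ^ k) (fun _ => ⊤) ⊆ PPoly A) ∧
    ∃ L : Set Str, L ∈ NT A (fun n => 2 ^ n) (fun _ => ⊤) ∧
      Lᶜ ∈ NT A (fun n => 2 ^ n) (fun _ => ⊤) ∧ (∀ k : ℕ, L ∉ DT A (fun n => 2 ^ n ^ k)) ∧
      L ∉ DT A (fun n => 2 ^ 2 ^ (n / 5)) := by
  classical
  obtain ⟨e, he⟩ := exists_surjective_nat (OM × Polynomial ℕ × ℕ)
  obtain ⟨d, hd⟩ := exists_surjective_nat (OM × Option ℕ)
  choose D hD using run_bdd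
  let cl : Option ℕ → ℕ → ℕ := fun o n => o.elim (2 ^ 2 ^ (n / 5)) (fun k => 2 ^ n ^ k)
  obtain ⟨A, h1, h2, h3⟩ := core
    (yes := fun i => runAlg (e i).1 (e i).2.1 (fun n => 2 ^ n ^ (e i).2.2))
    (bd := fun i x => 2 ^ ((x.length + x.length ^ (e i).2.2 + 1) * 2 ^ D (e i).1 (e i).2.1))
    (fun i x w => hD _ _ _ _ _ _ (by
      have k1 : x.length < 2 ^ x.length := Nat.lt_two_pow_self
      have k2 : 2 ^ x.length ≤ 2 ^ (x.length + x.length ^ (e i).2.2) :=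
        Nat.pow_le_pow_right (by norm_num) (by omega)
      have k3 : 2 ^ x.length ^ (e i).2.2 ≤ 2 ^ (x.length + x.length ^ (e i).2.2) :=
        Nat.pow_le_pow_right (by norm_num) (by omega)
      rw [pow_succ]
      omega))
    (fun j n => runAlg (d j).1 0 (cl (d j).2) (List.replicate n false) []) (fun j => by
      obtain ⟨N₁, h₁⟩ := ev_small 1
      obtain ⟨N₂, h₂⟩ : ∃ N, ∀ n, N ≤ n → cl (d j).2 n ≤ 2 ^ 2 ^ (n / 5) := by
        rcases (d j).2 with _ | k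
        · exact ⟨0, fun _ _ => le_rfl⟩
        · obtain ⟨N, hN⟩ := ev_small k
          exact ⟨N, fun n hn => Nat.pow_le_pow_right (by norm_num) (hN n hn)⟩
      refine ⟨N₁ + N₂ + 20 * (D (d j).1 0 + 2), fun n hn =>
        (hD _ _ _ _ _ (2 ^ (n / 5)) ?_).mono (Nat.pow_le_pow_right (by norm_num) ?_)⟩
      · have k1 := h₁ n (by omega)
        have k2 := h₂ n (by omega)
        have k3 : 2 ^ (n / 5) < 2 ^ 2 ^ (n / 5) := Nat.lt_two_pow_self
        rw [pow_one] at k1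
        rw [List.length_replicate, pow_succ]
        omega
      · have k1 : 1 ≤ 2 ^ (n / 5) := Nat.one_le_two_pow
        calc _ ≤ 2 ^ (n / 5 + 1) * 2 ^ D (d j).1 0 := by gcongr; omega
          _ ≤ _ := by rw [← pow_add]; exact Nat.pow_le_pow_right (by norm_num) (by omega))
    (le_refl 24)
  have hS : ∀ b : Bool, {x : Str | Wit b x.length A} ∈ NT A (fun n => 2 ^ n) (fun _ => ⊤) := by
    intro b
    obtain ⟨M, hM⟩ := one_query
      (show PolyT.Poly (fun a : Str × Str × Str => true :: b :: a.2.2) by fun_prop)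
      (show PolyT.Poly (fun z : (Str × Str × Str) × Bool =>
        eqB z.1.2.2.length z.1.2.1.length && z.2) by fun_prop)
    refine ⟨M, Polynomial.X, fun x => ⟨?_, le_top⟩⟩
    simp only [hM, Bool.and_eq_true, eqB_iff, List.length_replicate, Set.mem_ofPred_eq, Wit,
      Polynomial.eval_X]
    exact ⟨fun ⟨w, k1, k2⟩ => ⟨w, k1.le, k1, k2⟩, fun ⟨w, _, k⟩ => ⟨w, k⟩⟩
  have hN : ∀ o, {x : Str | Wit true x.length A} ∉ DT A (cl o) := by
    rintro o ⟨M, hM⟩
    obtain ⟨j, hj⟩ := hd (M, o)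
    obtain ⟨n, hn⟩ := h3 j
    have := hM (List.replicate n false)
    simp only [hj, runAlg, List.length_nil, Nat.zero_le, true_and] at hn
    rw [hn, Set.mem_ofPred_eq, List.length_replicate] at this
    tauto
  refine ⟨A, ?_, {x | Wit true x.length A}, hS true, ?_, fun k => hN (some k), hN none⟩
  · rintro k L ⟨M, p, hL⟩
    obtain ⟨i, hi⟩ := he (M, p, k)
    choose ρ r1 r2 using fun n => h1 ((n + n ^ k + 1) * 2 ^ D M p + i + 24) (by omega)
    have k1 : PolyT.Poly (fun a : Str × Str × Str => ((i, a.2.2, a.1) : ℕ × Str × Str)) := by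
      fun_prop
    obtain ⟨M', hM'⟩ := one_query ((PolyT.Poly.const false).cons (PolyT.Poly.bitsOf k1))
      (show PolyT.Poly (fun z : (Str × Str × Str) × Bool => z.2) by fun_prop)
    refine ⟨M', ρ, 150 * ((Polynomial.X + Polynomial.X ^ k + 1) * Polynomial.C (2 ^ D M p) +
      Polynomial.C i + 24 + 1) ^ 3 + 1, fun n => by simp [r1, aa], fun x => ?_⟩
    have k2 : x.length + x.length ^ k + 1 ≤ (x.length + x.length ^ k + 1) * 2 ^ D M p :=
      Nat.le_mul_of_pos_right _ (by positivity)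
    have := r2 x.length i (by omega) x (by omega)
      (by simp only [hi]; exact Nat.pow_le_pow_right (by norm_num) (by omega))
    simp only [hi, runAlg] at this
    rw [hM', (hL x).1, ← this]
    rfl
  · convert hS false using 1
    ext x
    simp [h2]

end Pool.Agent.MP_8c2300_lc.H70

end MrgPart4

-- marker of a merged file
example : 731051 + 819667 = 731051 + 819667 := rfl

end MrgPart1

-- marker of a merged file
example : 731051 + 819667 = 731051 + 819667 := rfl
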